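import Mathlib

set_option autoImplicit false

/-! # The normalised quasi-norms with exponent `1/k` on a finite set -/

namespace Pool.Agent.W463.CT

open Finset
open scoped NNReal

variable {Ω : Type*} [Fintype Ω]

/-- `(E φ^(1/k))^k`. -/
noncomputable def ell (k : ℕ) (φ : Ω → ℝ≥0) : ℝ≥0 :=
  ((∑ σ, φ σ ^ (1 / (k : ℝ))) / (Fintype.card Ω : ℝ≥0)) ^ k

lemma ell_mono (k : ℕ) {φ ψ : Ω → ℝ≥0} (h : ∀ σ, φ σ ≤ ψ σ) : ell k φ ≤ ell k ψ := by
  unfold ell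
  refine pow_le_pow_left₀ zero_le ?_ k
  refine div_le_div_of_nonneg_right ?_ zero_le
  exact Finset.sum_le_sum fun σ _ => NNReal.rpow_le_rpow (h σ) (by positivity)

lemma ell_one (φ : Ω → ℝ≥0) : ell 1 φ = (∑ σ, φ σ) / (Fintype.card Ω : ℝ≥0) := by
  simp [ell]

lemma ell_mul [Nonempty Ω] {a b : ℕ} (ha : 0 < a) (hb : 0 < b) (φ ψ : Ω → ℝ≥0) :
    ell (a + b) (fun σ => φ σ * ψ σ) ≤ ell a φ * ell b ψ := by
  unfold ell
  set N : ℝ≥0 := (Fintype.card Ω : ℝ≥0) with hN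
  have ha' : (0 : ℝ) < a := by exact_mod_cast ha
  have hb' : (0 : ℝ) < b := by exact_mod_cast hb
  have hab : (0 : ℝ) < (a : ℝ) + b := by positivity
  rw [div_pow, div_pow, div_pow, div_mul_div_comm, ← pow_add]
  refine div_le_div_of_nonneg_right ?_ zero_le
  have hpq : Real.HolderConjugate (((a : ℝ) + b) / a) (((a : ℝ) + b) / b) := by
    rw [Real.holderConjugate_iff]
    refine ⟨?_, ?_⟩
    · rw [lt_div_iff₀ ha']; linarith
    · field_simp
  have h1 := NNReal.inner_le_Lp_mul_Lq Finset.univ (fun σ => φ σ ^ (1 / ((a : ℝ) + b)))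
    (fun σ => ψ σ ^ (1 / ((a : ℝ) + b))) hpq
  have e1 : ∀ σ, (φ σ ^ (1 / ((a : ℝ) + b))) ^ (((a : ℝ) + b) / a) = φ σ ^ (1 / (a : ℝ)) := by
    intro σ
    rw [← NNReal.rpow_mul]
    congr 1
    field_simp
  have e2 : ∀ σ, (ψ σ ^ (1 / ((a : ℝ) + b))) ^ (((a : ℝ) + b) / b) = ψ σ ^ (1 / (b : ℝ)) := by
    intro σ
    rw [← NNReal.rpow_mul]
    congr 1
    field_simp
  simp only [e1, e2, ← NNReal.mul_rpow] at h1
  have h2 := pow_le_pow_left₀ zero_le h1 (a + b)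
  push_cast
  refine h2.trans (le_of_eq ?_)
  rw [mul_pow]
  congr 1
  · rw [← NNReal.rpow_natCast, ← NNReal.rpow_mul, ← NNReal.rpow_natCast]
    congr 1
    push_cast
    field_simp
  · rw [← NNReal.rpow_natCast, ← NNReal.rpow_mul, ← NNReal.rpow_natCast]
    congr 1
    push_cast
    field_simp

lemma ell_const_one [Nonempty Ω] (k : ℕ) : ell k (fun _ : Ω => (1 : ℝ≥0)) = 1 := by
  unfold ell
  simp

lemma ell_anti [Nonempty Ω] {k l : ℕ} (hk : 0 < k) (hkl : k ≤ l) (φ : Ω → ℝ≥0) :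
    ell l φ ≤ ell k φ := by
  rcases Nat.eq_or_lt_of_le hkl with h | h
  · rw [h]
  · obtain ⟨b, hb⟩ : ∃ b, l = k + b := ⟨l - k, by omega⟩
    have hb0 : 0 < b := by omega
    have := ell_mul hk hb0 φ (fun _ => 1)
    rw [ell_const_one] at this
    simpa [hb] using this

lemma rpow_sum_le {ι : Type*} (s : Finset ι) (f : ι → ℝ≥0) {p : ℝ} (hp0 : 0 < p) (hp : p ≤ 1) :
    (∑ t ∈ s, f t) ^ p ≤ ∑ t ∈ s, f t ^ p := by
  classical
  induction s using Finset.induction_on with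
  | empty => simp [NNReal.zero_rpow hp0.ne']
  | insert a s ha ih =>
    rw [Finset.sum_insert ha, Finset.sum_insert ha]
    exact (NNReal.rpow_add_le_add_rpow _ _ hp0.le hp).trans (by gcongr)

lemma ell_sum {ι : Type*} (s : Finset ι) {k : ℕ} (hk : 0 < k) (φ : ι → Ω → ℝ≥0) :
    ell k (fun σ => ∑ t ∈ s, φ t σ) ≤ (s.card : ℝ≥0) ^ (k - 1) * ∑ t ∈ s, ell k (φ t) := by
  classical
  unfold ell
  set N : ℝ≥0 := (Fintype.card Ω : ℝ≥0) with hN
  have hk' : (0 : ℝ) < k := by exact_mod_cast hk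
  have hk1 : (1 : ℝ) ≤ k := by exact_mod_cast hk
  have h1 : (∑ σ, (∑ t ∈ s, φ t σ) ^ (1 / (k : ℝ))) / N ≤
      ∑ t ∈ s, (∑ σ, φ t σ ^ (1 / (k : ℝ))) / N := by
    rw [← Finset.sum_div, Finset.sum_comm]
    refine div_le_div_of_nonneg_right ?_ zero_le
    refine Finset.sum_le_sum fun σ _ => rpow_sum_le s _ (by positivity) ?_
    rw [div_le_one hk']
    exact hk1
  refine (pow_le_pow_left₀ zero_le h1 k).trans ?_
  obtain ⟨j, rfl⟩ : ∃ j, k = j + 1 := ⟨k - 1, by omega⟩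
  rw [Nat.add_sub_cancel]
  rw [← NNReal.coe_le_coe]
  push_cast
  exact pow_sum_le_card_mul_sum_pow (fun i _ => by positivity) j

lemma ell_ge {k : ℕ} (hk : 0 < k) (φ : Ω → ℝ≥0) (P : Finset Ω) (h : ∀ σ ∈ P, 1 ≤ φ σ) :
    ((P.card : ℝ≥0) / (Fintype.card Ω : ℝ≥0)) ^ k ≤ ell k φ := by
  unfold ell
  refine pow_le_pow_left₀ zero_le ?_ k
  refine div_le_div_of_nonneg_right ?_ zero_le
  have h1 : (P.card : ℝ≥0) = ∑ σ ∈ P, 1 := by simp
  rw [h1]
  refine (Finset.sum_le_sum fun σ hσ => ?_).trans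
    (Finset.sum_le_sum_of_subset_of_nonneg (Finset.subset_univ P) fun _ _ _ => zero_le)
  exact NNReal.one_le_rpow (h σ hσ) (by positivity)

end Pool.Agent.W463.CT
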