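import Mathlib
import Pool.Agent.H691R2.MM.Coef

set_option autoImplicit false

/-! # The absolute polynomial of a node of a circuit -/

namespace Pool.Agent.W463.CT

open MvPolynomial Finset
open scoped NNReal
open Pool.Agent.H567.Nec Pool.Agent.H691R2.MM

universe u v

/-- The absolute polynomial of a node: constants are replaced by their absolute values. -/
noncomputable def absv {K : Type u} {σ : Type v} [Field K] (w : AbsoluteValue K ℝ)
    (Φ : Circuit K σ) (i : Fin Φ.N) : MvPolynomial σ ℝ≥0 :=
  match _hi : Φ.node i with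
  | .var v => X v
  | .const c => C (w c).toNNReal
  | .add l r => absv w Φ l + absv w Φ r
  | .mul l r => absv w Φ l * absv w Φ r
termination_by i.1
decreasing_by
  · exact Φ.lt i l false (by rw [_hi]; rfl)
  · exact Φ.lt i r true (by rw [_hi]; rfl)
  · exact Φ.lt i l false (by rw [_hi]; rfl)
  · exact Φ.lt i r true (by rw [_hi]; rfl)

section lemmas

variable {K : Type u} {σ : Type v} [Field K] (w : AbsoluteValue K ℝ) (Φ : Circuit K σ)

lemma absv_var {i : Fin Φ.N} {v : σ} (h : Φ.node i = Node.var v) : absv w Φ i = X v := by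
  rw [absv]
  split
  · rename_i h'; rw [h] at h'; injection h' with h'; rw [h']
  all_goals (rename_i h'; rw [h] at h'; cases h')

lemma absv_const {i : Fin Φ.N} {c : K} (h : Φ.node i = Node.const c) :
    absv w Φ i = C (w c).toNNReal := by
  rw [absv]
  split
  · rename_i h'; rw [h] at h'; cases h'
  · rename_i h'; rw [h] at h'; injection h' with h'; subst h'; rfl
  all_goals (rename_i h'; rw [h] at h'; cases h')

lemma absv_add {i l r : Fin Φ.N} (h : Φ.node i = Node.add l r) :
    absv w Φ i = absv w Φ l + absv w Φ r := by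
  rw [absv]
  split
  · rename_i h'; rw [h] at h'; cases h'
  · rename_i h'; rw [h] at h'; cases h'
  · rename_i h'; rw [h] at h'; injection h' with h1 h2; rw [h1, h2]
  all_goals (rename_i h'; rw [h] at h'; cases h')

lemma absv_mul {i l r : Fin Φ.N} (h : Φ.node i = Node.mul l r) :
    absv w Φ i = absv w Φ l * absv w Φ r := by
  rw [absv]
  split
  · rename_i h'; rw [h] at h'; cases h'
  · rename_i h'; rw [h] at h'; cases h'
  · rename_i h'; rw [h] at h'; cases h'
  · rename_i h'; rw [h] at h'; injection h' with h1 h2; rw [h1, h2]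

omit [Field K] in
/-- Induction over the nodes of a circuit. -/
lemma node_induction (p : Fin Φ.N → Prop)
    (hvar : ∀ i v, Φ.node i = Node.var v → p i)
    (hconst : ∀ i c, Φ.node i = Node.const c → p i)
    (hadd : ∀ i l r, Φ.node i = Node.add l r → p l → p r → p i)
    (hmul : ∀ i l r, Φ.node i = Node.mul l r → p l → p r → p i) (i : Fin Φ.N) : p i := by
  obtain ⟨n, hn⟩ : ∃ n, i.1 = n := ⟨_, rfl⟩
  induction n using Nat.strong_induction_on generalizing i with
  | _ n ih =>
    cases hnode : Φ.node i with
    | var v => exact hvar i v hnode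
    | const c => exact hconst i c hnode
    | add l r =>
      have hl : l.1 < i.1 := Φ.lt i l false (by rw [hnode]; rfl)
      have hr : r.1 < i.1 := Φ.lt i r true (by rw [hnode]; rfl)
      exact hadd i l r hnode (ih l.1 (by omega) l rfl) (ih r.1 (by omega) r rfl)
    | mul l r =>
      have hl : l.1 < i.1 := Φ.lt i l false (by rw [hnode]; rfl)
      have hr : r.1 < i.1 := Φ.lt i r true (by rw [hnode]; rfl)
      exact hmul i l r hnode (ih l.1 (by omega) l rfl) (ih r.1 (by omega) r rfl)

/-- The coefficients of the value are bounded by those of the absolute polynomial. -/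
lemma coeff_value_le (i : Fin Φ.N) (m : σ →₀ ℕ) :
    w ((Φ.value i).coeff m) ≤ (((absv w Φ i).coeff m : ℝ≥0) : ℝ) := by
  classical
  induction i using node_induction Φ generalizing m with
  | hvar i v h =>
    rw [value_var Φ h, absv_var w Φ h, coeff_X, coeff_X]
    split_ifs <;> simp
  | hconst i c h =>
    rw [value_const Φ h, absv_const w Φ h, coeff_C, coeff_C]
    split_ifs
    · rw [Real.coe_toNNReal _ (w.nonneg c)]
    · simp
  | hadd i l r h hl hr =>
    rw [value_add Φ h, absv_add w Φ h, coeff_add, coeff_add, NNReal.coe_add]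
    exact (w.add_le _ _).trans (add_le_add (hl m) (hr m))
  | hmul i l r h hl hr =>
    rw [value_mul Φ h, absv_mul w Φ h, coeff_mul, coeff_mul, NNReal.coe_sum]
    refine (w.sum_le _ _).trans (Finset.sum_le_sum fun p _ => ?_)
    rw [map_mul, NNReal.coe_mul]
    exact mul_le_mul (hl _) (hr _) (w.nonneg _) (NNReal.coe_nonneg _)

/-- The sum of the coefficients. -/
noncomputable def mass (f : MvPolynomial σ ℝ≥0) : ℝ≥0 := eval (fun _ => 1) f

lemma mass_add (f g : MvPolynomial σ ℝ≥0) : mass (f + g) = mass f + mass g := by simp [mass]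
lemma mass_mul (f g : MvPolynomial σ ℝ≥0) : mass (f * g) = mass f * mass g := by simp [mass]
lemma mass_zero : mass (0 : MvPolynomial σ ℝ≥0) = 0 := by simp [mass]
lemma mass_one : mass (1 : MvPolynomial σ ℝ≥0) = 1 := by simp [mass]
lemma mass_sum {ι : Type*} (s : Finset ι) (f : ι → MvPolynomial σ ℝ≥0) :
    mass (∑ i ∈ s, f i) = ∑ i ∈ s, mass (f i) := by simp [mass]

lemma mass_eq (f : MvPolynomial σ ℝ≥0) : mass f = ∑ m ∈ f.support, f.coeff m := by
  simp [mass, eval_eq]

lemma mass_absv (i : Fin Φ.N) : ((mass (absv w Φ i) : ℝ≥0) : ℝ) = cost w Φ i := by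
  induction i using node_induction Φ with
  | hvar i v h => rw [absv_var w Φ h, cost_var w Φ h]; simp [mass]
  | hconst i c h => rw [absv_const w Φ h, cost_const w Φ h, mass, eval_C, Real.coe_toNNReal _ (w.nonneg c)]
  | hadd i l r h hl hr => rw [absv_add w Φ h, cost_add w Φ h, mass_add, NNReal.coe_add, hl, hr]
  | hmul i l r h hl hr => rw [absv_mul w Φ h, cost_mul w Φ h, mass_mul, NNReal.coe_mul, hl, hr]

end lemmas

section hom

variable {σ : Type v}

/-- homogeneous component -/
noncomputable abbrev hc (e : ℕ) (f : MvPolynomial σ ℝ≥0) : MvPolynomial σ ℝ≥0 :=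
  homogeneousComponent e f

lemma hc_mul (e : ℕ) (f g : MvPolynomial σ ℝ≥0) :
    hc e (f * g) = ∑ p ∈ Finset.HasAntidiagonal.antidiagonal e, hc p.1 f * hc p.2 g := by
  classical
  refine MvPolynomial.ext _ _ fun m => ?_
  rw [coeff_homogeneousComponent, coeff_sum]
  simp only [coeff_mul, coeff_homogeneousComponent]
  split_ifs with hm
  · rw [Finset.sum_comm]
    refine Finset.sum_congr rfl fun q hq => ?_
    rw [Finset.HasAntidiagonal.mem_antidiagonal] at hq
    rw [Finset.sum_eq_single (q.1.degree, q.2.degree)]
    · simp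
    · intro p hp hne
      rw [Finset.HasAntidiagonal.mem_antidiagonal] at hp
      by_cases h1 : q.1.degree = p.1
      · by_cases h2 : q.2.degree = p.2
        · exact absurd (Prod.ext h1.symm h2.symm) hne
        · simp [h2]
      · simp [h1]
    · intro hne
      exfalso
      apply hne
      rw [Finset.HasAntidiagonal.mem_antidiagonal]
      simp only
      rw [← hm, ← hq]
      simp
  · symm
    apply Finset.sum_eq_zero
    intro p hp
    apply Finset.sum_eq_zero
    intro q hq
    rw [Finset.HasAntidiagonal.mem_antidiagonal] at hp hq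
    by_cases h1 : q.1.degree = p.1
    · by_cases h2 : q.2.degree = p.2
      · exfalso
        apply hm
        rw [← hq, ← hp, ← h1, ← h2]
        simp
      · simp [h2]
    · simp [h1]

lemma hc_isHom (e : ℕ) (f : MvPolynomial σ ℝ≥0) : (hc e f).IsHomogeneous e :=
  homogeneousComponent_isHomogeneous e f

lemma mass_hc_le (e : ℕ) (f : MvPolynomial σ ℝ≥0) : mass (hc e f) ≤ mass f := by
  classical
  rw [mass_eq, mass_eq]
  have h1 : (hc e f).support ⊆ f.support := by
    intro m hm
    rw [mem_support_iff, coeff_homogeneousComponent] at hm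
    rw [mem_support_iff]
    intro h0
    apply hm
    rw [h0]; simp
  refine le_trans (Finset.sum_le_sum fun m _ => ?_)
    (Finset.sum_le_sum_of_subset_of_nonneg h1 fun _ _ _ => zero_le)
  rw [coeff_homogeneousComponent]
  split_ifs <;> simp

end hom

end Pool.Agent.W463.CT
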