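import Mathlib
import Pool.Agent.W463.CT.Basic

set_option autoImplicit false

/-! # Coefficients at the monomials dividing a permutation monomial -/

namespace Pool.Agent.W463.CT

open MvPolynomial Finset
open scoped NNReal

variable {n : ℕ}

/-- The exponent vector of `∏ x_{i, σ i}`. -/
noncomputable def mono (σ : Equiv.Perm (Fin n)) : Fin n × Fin n →₀ ℕ :=
  ∑ i, Finsupp.single (i, σ i) 1

lemma mono_apply (σ : Equiv.Perm (Fin n)) (x : Fin n × Fin n) :
    mono σ x = if σ x.1 = x.2 then 1 else 0 := by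
  classical
  unfold mono
  rw [Finsupp.finsetSum_apply]
  simp only [Finsupp.single_apply]
  rw [Finset.sum_eq_single x.1]
  · have : ((x.1, σ x.1) = x) ↔ σ x.1 = x.2 := by
      constructor
      · intro h; rw [← h]
      · intro h; rw [h]
    simp only [this]
  · intro j _ hj
    rw [if_neg]
    rintro rfl
    exact hj rfl
  · intro h; exact absurd (Finset.mem_univ _) h

lemma degree_mono (σ : Equiv.Perm (Fin n)) : (mono σ).degree = n := by
  unfold mono
  rw [map_sum]
  simp

/-- The sum of the coefficients of `f` at the divisors of the monomial of `σ`. -/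
noncomputable def G (f : MvPolynomial (Fin n × Fin n) ℝ≥0) (σ : Equiv.Perm (Fin n)) : ℝ≥0 :=
  ∑ m ∈ Finset.Iic (mono σ), f.coeff m

lemma coeff_le_G (f : MvPolynomial (Fin n × Fin n) ℝ≥0) (σ : Equiv.Perm (Fin n)) :
    f.coeff (mono σ) ≤ G f σ :=
  Finset.single_le_sum (f := fun m => f.coeff m) (fun _ _ => zero_le)
    (Finset.mem_Iic.mpr le_rfl)

lemma G_add (f g : MvPolynomial (Fin n × Fin n) ℝ≥0) (σ : Equiv.Perm (Fin n)) :
    G (f + g) σ = G f σ + G g σ := by
  simp [G, Finset.sum_add_distrib]

lemma G_sum {ι : Type*} (s : Finset ι) (f : ι → MvPolynomial (Fin n × Fin n) ℝ≥0)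
    (σ : Equiv.Perm (Fin n)) : G (∑ i ∈ s, f i) σ = ∑ i ∈ s, G (f i) σ := by
  simp only [G, coeff_sum]
  exact Finset.sum_comm

lemma G_mul_le (f g : MvPolynomial (Fin n × Fin n) ℝ≥0) (σ : Equiv.Perm (Fin n)) :
    G (f * g) σ ≤ G f σ * G g σ := by
  classical
  unfold G
  rw [Finset.sum_mul_sum, ← Finset.sum_product']
  have h1 : ∑ m ∈ Finset.Iic (mono σ), (f * g).coeff m =
      ∑ m ∈ Finset.Iic (mono σ), ∑ q ∈ ((Finset.Iic (mono σ) ×ˢ Finset.Iic (mono σ)).filter
        (fun q => q.1 + q.2 ≤ mono σ)).filter (fun q => q.1 + q.2 = m), f.coeff q.1 * g.coeff q.2 := by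
    refine Finset.sum_congr rfl fun m hm => ?_
    rw [Finset.mem_Iic] at hm
    rw [coeff_mul]
    refine Finset.sum_congr ?_ fun _ _ => rfl
    ext q
    rw [Finset.HasAntidiagonal.mem_antidiagonal, Finset.mem_filter, Finset.mem_filter,
      Finset.mem_product, Finset.mem_Iic, Finset.mem_Iic]
    constructor
    · intro h
      exact ⟨⟨⟨(le_trans (by rw [← h]; exact le_self_add) hm),
        (le_trans (by rw [← h]; exact le_add_self) hm)⟩, by rw [h]; exact hm⟩, h⟩
    · intro h; exact h.2
  rw [h1, Finset.sum_fiberwise_of_maps_to]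
  · exact Finset.sum_le_sum_of_subset_of_nonneg (Finset.filter_subset _ _) fun _ _ _ => zero_le
  · intro q hq
    rw [Finset.mem_filter] at hq
    exact Finset.mem_Iic.mpr hq.2

/-- The number of permutations with prescribed values on a set. -/
lemma card_agree (σ₀ : Equiv.Perm (Fin n)) (R : Finset (Fin n)) :
    (Finset.univ.filter (fun σ : Equiv.Perm (Fin n) => ∀ i ∈ R, σ i = σ₀ i)).card =
      (n - R.card).factorial := by
  classical
  have h1 : Fintype.card {f : Equiv.Perm (Fin n) // ∀ a, ¬ (a ∉ R) → f a = a} =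
      (n - R.card).factorial := by
    rw [← Fintype.card_congr (Equiv.Perm.subtypeEquivSubtypePerm (fun i => i ∉ R)),
      Fintype.card_perm]
    congr 1
    rw [Fintype.card_subtype]
    have : (Finset.univ.filter (fun i : Fin n => i ∉ R)) = Rᶜ := by
      ext i; simp
    rw [this, Finset.card_compl, Fintype.card_fin]
  rw [← h1, ← Fintype.card_subtype]
  refine Fintype.card_congr ⟨fun σ => ⟨σ₀⁻¹ * σ.1, ?_⟩, fun f => ⟨σ₀ * f.1, ?_⟩, ?_, ?_⟩
  · intro a ha
    rw [not_not] at ha
    rw [Equiv.Perm.mul_apply, σ.2 a ha]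
    simp
  · intro i hi
    rw [Equiv.Perm.mul_apply, f.2 i (by rw [not_not]; exact hi)]
  · intro σ; simp
  · intro f; simp

lemma card_div_le (m : Fin n × Fin n →₀ ℕ) :
    (Finset.univ.filter (fun σ : Equiv.Perm (Fin n) => m ≤ mono σ)).card ≤
      (n - m.degree).factorial := by
  classical
  by_cases hne : ∃ σ₀ : Equiv.Perm (Fin n), m ≤ mono σ₀
  · obtain ⟨σ₀, h0⟩ := hne
    set R : Finset (Fin n) := Finset.univ.filter (fun i => m (i, σ₀ i) ≠ 0) with hR
    have hle1 : ∀ i, m (i, σ₀ i) ≤ 1 := by
      intro i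
      have := h0 (i, σ₀ i)
      rw [mono_apply] at this
      simpa using this
    have hcard : R.card = m.degree := by
      rw [Finsupp.degree_eq_sum, Fintype.sum_prod_type, hR, Finset.card_filter]
      refine Finset.sum_congr rfl fun i _ => ?_
      rw [Finset.sum_eq_single (σ₀ i)]
      · have := hle1 i
        interval_cases h : m (i, σ₀ i) <;> simp
      · intro j _ hj
        have := h0 (i, j)
        rw [mono_apply, if_neg (by simpa using fun h => hj h.symm)] at this
        omega
      · intro h; exact absurd (Finset.mem_univ _) h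
    rw [← hcard, ← card_agree σ₀ R]
    apply Finset.card_le_card
    intro σ hσ
    rw [Finset.mem_filter] at hσ ⊢
    refine ⟨Finset.mem_univ _, fun i hi => ?_⟩
    rw [hR, Finset.mem_filter] at hi
    have := hσ.2 (i, σ₀ i)
    rw [mono_apply] at this
    by_contra hcon
    rw [if_neg (by simpa using hcon)] at this
    exact hi.2 (Nat.le_zero.mp this)
  · push Not at hne
    rw [Finset.filter_false_of_mem (fun σ _ => hne σ)]
    simp

/-- The sum of `G f` over all permutations, for `f` homogeneous of degree `d`. -/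
lemma sum_G_le {d : ℕ} (f : MvPolynomial (Fin n × Fin n) ℝ≥0) (hf : f.IsHomogeneous d) :
    ∑ σ, G f σ ≤ ((n - d).factorial : ℝ≥0) * mass f := by
  classical
  unfold G
  have h1 : ∀ σ : Equiv.Perm (Fin n), ∑ m ∈ Finset.Iic (mono σ), f.coeff m =
      ∑ m ∈ f.support, if m ≤ mono σ then f.coeff m else 0 := by
    intro σ
    rw [← Finset.sum_filter]
    symm
    apply Finset.sum_subset_zero_on_sdiff
    · intro m hm
      rw [Finset.mem_filter] at hm
      exact Finset.mem_Iic.mpr hm.2
    · intro m hm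
      rw [Finset.mem_sdiff, Finset.mem_filter, Finset.mem_Iic] at hm
      by_contra h
      exact hm.2 ⟨mem_support_iff.mpr h, hm.1⟩
    · intro m _; rfl
  rw [Finset.sum_congr rfl fun σ _ => h1 σ, Finset.sum_comm, mass_eq, Finset.mul_sum]
  refine Finset.sum_le_sum fun m hm => ?_
  rw [← Finset.sum_filter, Finset.sum_const, nsmul_eq_mul]
  refine mul_le_mul_of_nonneg_right ?_ zero_le
  have h2 := card_div_le m
  have h3 : m.degree = d := by
    have := hf (mem_support_iff.mp hm)
    rw [← this]
    exact DFunLike.congr_fun (Finsupp.degree_eq_weight_one (R := ℕ)) m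
  rw [h3] at h2
  exact_mod_cast h2

end Pool.Agent.W463.CT
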