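import Mathlib
import Pool.Agent.W463.CT.Perm
import Pool.Agent.W463.CT.Ell

set_option autoImplicit false

/-! # Products of matrices of linear forms, cut into blocks -/

namespace Pool.Agent.W463.CT.Seg

open MvPolynomial Finset Matrix
open scoped NNReal

/-- Polynomials in the entries of an `n × n` matrix. -/
abbrev RR (n : ℕ) := MvPolynomial (Fin n × Fin n) ℝ≥0

variable {n : ℕ} {ι : Type} [Fintype ι] [DecidableEq ι]

/-- The exponent. -/
def ex (Q : ℕ) : ℕ := Q * Nat.clog 2 Q + 1 - Q

lemma ex_one : ex 1 = 0 := by simp [ex]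

lemma ex_two : ex 2 = 1 := by
  have : Nat.clog 2 2 = 1 := by
    rw [Nat.clog_of_one_lt (by norm_num) (by norm_num)]
    simp
  simp [ex, this]

lemma ex_split {Q : ℕ} (hQ : 2 ≤ Q) :
    (Q - 1) + ex (Q / 2) + ex (Q - Q / 2) ≤ ex Q := by
  have h1 : Nat.clog 2 Q = Nat.clog 2 ((Q + 1) / 2) + 1 := by
    rw [Nat.clog_of_one_lt (by norm_num) (by omega)]
    congr 1
  have h2 : (Q + 1) / 2 = Q - Q / 2 := by omega
  have h3 : Nat.clog 2 (Q / 2) ≤ Nat.clog 2 ((Q + 1) / 2) :=
    Nat.clog_mono_right 2 (by omega)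
  set c := Nat.clog 2 ((Q + 1) / 2) with hc
  unfold ex
  rw [h1, ← h2, ← hc]
  set a := Q / 2 with ha
  set b := (Q + 1) / 2 with hb
  have hab : a + b = Q := by omega
  have ha1 : 1 ≤ a := by omega
  have hb1 : 1 ≤ b := by omega
  have h4 : a * Nat.clog 2 a ≤ a * c := Nat.mul_le_mul_left a h3
  have h5 : Q * (c + 1) = a * c + b * c + Q := by rw [← hab]; ring
  rw [h5]
  -- lower bounds to avoid truncation problems
  have h6 : b ≤ b * c + 1 := by
    rcases Nat.lt_or_ge b 2 with h | h
    · omega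
    · have : 1 ≤ c := by
        have := Nat.clog_pos (b := 2) (n := b) (by norm_num) h
        exact this
      nlinarith
  have h7 : a ≤ a * Nat.clog 2 a + 1 := by
    rcases Nat.lt_or_ge a 2 with h | h
    · omega
    · have : 1 ≤ Nat.clog 2 a := Nat.clog_pos (by norm_num) h
      nlinarith
  omega

lemma ell_base {d : ℕ} (f : RR n) (hf : f.IsHomogeneous d) :
    ell 1 (G f) ≤ ((n - d).factorial : ℝ≥0) / (n.factorial : ℝ≥0) * mass f := by
  rw [ell_one, Fintype.card_perm, Fintype.card_fin, div_mul_eq_mul_div]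
  exact div_le_div_of_nonneg_right (sum_G_le f hf) zero_le

omit [DecidableEq ι] in
lemma G_sum_mul_le (g h : ι → RR n) (σ : Equiv.Perm (Fin n)) :
    G (∑ k, g k * h k) σ ≤ ∑ k, G (g k) σ * G (h k) σ := by
  rw [G_sum]
  exact Finset.sum_le_sum fun k _ => G_mul_le _ _ _

omit [DecidableEq ι] in
lemma good_join {Qa Qb : ℕ} (ha : 0 < Qa) (hb : 0 < Qb) (g h : ι → RR n) (ca cb : ℝ≥0)
    (hg : ∀ k, ell Qa (G (g k)) ≤ ca * mass (g k))
    (hh : ∀ k, ell Qb (G (h k)) ≤ cb * mass (h k)) :
    ell (Qa + Qb) (G (∑ k, g k * h k)) ≤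
      (Fintype.card ι : ℝ≥0) ^ (Qa + Qb - 1) * (ca * cb) * mass (∑ k, g k * h k) := by
  have h1 : ell (Qa + Qb) (G (∑ k, g k * h k)) ≤
      ell (Qa + Qb) (fun σ => ∑ k, G (g k) σ * G (h k) σ) :=
    ell_mono _ (G_sum_mul_le g h)
  have h2 := ell_sum (Finset.univ : Finset ι) (k := Qa + Qb) (by omega)
    (fun k σ => G (g k) σ * G (h k) σ)
  rw [Finset.card_univ] at h2
  refine (h1.trans h2).trans ?_
  have h3 : ∑ k, ell (Qa + Qb) (fun σ => G (g k) σ * G (h k) σ) ≤
      ∑ k, (ca * cb) * mass (g k * h k) := by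
    refine Finset.sum_le_sum fun k _ => ?_
    refine (ell_mul ha hb _ _).trans ?_
    rw [mass_mul]
    calc ell Qa (G (g k)) * ell Qb (G (h k)) ≤ (ca * mass (g k)) * (cb * mass (h k)) :=
          mul_le_mul' (hg k) (hh k)
      _ = _ := by ring
  rw [mul_assoc, mass_sum]
  rw [← Finset.mul_sum] at h3
  exact mul_le_mul_of_nonneg_left h3 zero_le

/-- The ordered product of the matrices `M s, …, M (s + k - 1)`. -/
noncomputable def Pr (M : ℕ → Matrix ι ι (RR n)) : ℕ → ℕ → Matrix ι ι (RR n)
  | _, 0 => 1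
  | s, k + 1 => M s * Pr M (s + 1) k

lemma Pr_add (M : ℕ → Matrix ι ι (RR n)) (a b s : ℕ) :
    Pr M s (a + b) = Pr M s a * Pr M (s + a) b := by
  induction a generalizing s with
  | zero => simp [Pr]
  | succ a ih =>
    have e1 : a + 1 + b = (a + b) + 1 := by ring
    have e2 : s + (a + 1) = s + 1 + a := by ring
    rw [e1, Pr, ih, Pr, e2, Matrix.mul_assoc]

lemma Pr_hom (M : ℕ → Matrix ι ι (RR n)) (hM : ∀ k i j, (M k i j).IsHomogeneous 1) (k : ℕ) :
    ∀ s i j, (Pr M s k i j).IsHomogeneous k := by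
  induction k with
  | zero =>
    intro s i j
    rw [Pr, Matrix.one_apply]
    split_ifs
    · exact isHomogeneous_one _ _
    · exact isHomogeneous_zero _ _ _
  | succ k ih =>
    intro s i j
    rw [Pr, Matrix.mul_apply]
    refine IsHomogeneous.sum _ _ _ fun l _ => ?_
    have := (hM s i l).mul (ih (s + 1) l j)
    rwa [Nat.add_comm 1 k] at this

theorem seg (M : ℕ → Matrix ι ι (RR n)) (hM : ∀ k i j, (M k i j).IsHomogeneous 1) (Q : ℕ) :
    1 ≤ Q → ∀ L : List ℕ, L.length = Q → ∀ s i j,
      ell Q (G (Pr M s L.sum i j)) ≤ (Fintype.card ι : ℝ≥0) ^ ex Q *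
        (L.map (fun d => ((n - d).factorial : ℝ≥0) / (n.factorial : ℝ≥0))).prod *
        mass (Pr M s L.sum i j) := by
  induction Q using Nat.strong_induction_on with
  | _ Q ih =>
    intro hQ L hL s i j
    rcases Nat.eq_or_lt_of_le hQ with h1 | h1
    · subst h1
      obtain ⟨d, rfl⟩ := List.length_eq_one_iff.mp hL
      rw [ex_one, pow_zero, one_mul]
      simp only [List.map_cons, List.map_nil, List.prod_cons, List.prod_nil, mul_one,
        List.sum_cons, List.sum_nil, add_zero]
      exact ell_base _ (Pr_hom M hM d s i j)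
    · have hQ2 : 2 ≤ Q := h1
      set a := Q / 2 with ha
      have ha0 : 0 < a := by omega
      have hb0 : 0 < Q - a := by omega
      have hL1 : (L.take a).length = a := by
        rw [List.length_take]; omega
      have hL2 : (L.drop a).length = Q - a := by
        rw [List.length_drop]; omega
      have hsum : L.sum = (L.take a).sum + (L.drop a).sum := by
        rw [← List.sum_append, List.take_append_drop]
      have hprod : (L.map (fun d => ((n - d).factorial : ℝ≥0) / (n.factorial : ℝ≥0))).prod =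
          ((L.take a).map (fun d => ((n - d).factorial : ℝ≥0) / (n.factorial : ℝ≥0))).prod *
          ((L.drop a).map (fun d => ((n - d).factorial : ℝ≥0) / (n.factorial : ℝ≥0))).prod := by
        rw [← List.prod_append, ← List.map_append, List.take_append_drop]
      have iha := ih a (by omega) ha0 _ hL1
      have ihb := ih (Q - a) (by omega) hb0 _ hL2
      rw [hsum, Pr_add, Matrix.mul_apply, hprod]
      have hQe : a + (Q - a) = Q := by omega
      have hj := good_join ha0 hb0 (fun k => Pr M s (L.take a).sum i k)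
        (fun k => Pr M (s + (L.take a).sum) (L.drop a).sum k j) _ _
        (fun k => iha s i k) (fun k => ihb (s + (L.take a).sum) k j)
      rw [hQe] at hj
      refine hj.trans ?_
      refine mul_le_mul_of_nonneg_right ?_ zero_le
      set pa := ((L.take a).map (fun d => ((n - d).factorial : ℝ≥0) / (n.factorial : ℝ≥0))).prod
      set pb := ((L.drop a).map (fun d => ((n - d).factorial : ℝ≥0) / (n.factorial : ℝ≥0))).prod
      have hc : (1 : ℝ≥0) ≤ (Fintype.card ι : ℝ≥0) := by
        have : 0 < Fintype.card ι := Fintype.card_pos_iff.mpr ⟨i⟩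
        exact_mod_cast this
      calc (Fintype.card ι : ℝ≥0) ^ (Q - 1) * ((Fintype.card ι : ℝ≥0) ^ ex a * pa *
            ((Fintype.card ι : ℝ≥0) ^ ex (Q - a) * pb))
          = (Fintype.card ι : ℝ≥0) ^ ((Q - 1) + ex a + ex (Q - a)) * (pa * pb) := by
            rw [pow_add, pow_add]; ring
        _ ≤ (Fintype.card ι : ℝ≥0) ^ ex Q * (pa * pb) :=
            mul_le_mul_of_nonneg_right (pow_le_pow_right₀ hc (ex_split hQ2)) zero_le

end Pool.Agent.W463.CT.Seg
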