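import Mathlib
import Pool.Agent.W463.CT.Seg
import Pool.Agent.H691R2.MM.Coef
import Pool.Agent.H691R2.Skew.A

set_option autoImplicit false

/-! # Weakly skew circuits: size, mass and compositions of `n` -/

namespace Pool.Agent.W463.CT.WS

open MvPolynomial Finset Matrix
open scoped NNReal
open Pool.Agent.H567.Nec Pool.Agent.W463.CT.Seg
open Pool.Agent.H691R2.Skew (Pg Pg_add Pg_smul sumW act step Aut aut_sub ser coeff_le_Pg
  sum_sumW_le act_cons sumW_succ)
open Pool.Agent.H567.Nec.Circuit (Reu)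

universe u v

section words

variable {n : ℕ} {ι : Type} [Fintype ι] [DecidableEq ι]

/-- The variable, over the nonnegative reals. -/
noncomputable abbrev XX (n : ℕ) : Fin n × Fin n → RR n := fun x => X x

lemma Pg_zero_fun (r : ℕ) : Pg (XX n) r (fun _ => 0) = 0 := by
  have := Pg_smul (XX n) r 0 (fun _ => 0)
  simpa using this

lemma Pg_sum {κ : Type*} (s : Finset κ) (r : ℕ) (c : κ → ℝ≥0)
    (F : κ → List (Fin n × Fin n) → ℝ≥0) :
    Pg (XX n) r (fun w => ∑ j ∈ s, c j * F j w) = ∑ j ∈ s, C (c j) * Pg (XX n) r (F j) := by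
  classical
  induction s using Finset.induction_on with
  | empty => simp only [Finset.sum_empty]; exact Pg_zero_fun r
  | insert a s ha ih =>
    simp only [Finset.sum_insert ha]
    rw [Pg_add, ih, Pg_smul]
    rfl

/-- The vectors of polynomials of words of length `r`. -/
noncomputable def tb (W : Fin n × Fin n → ι → ι → ℝ≥0) (b : ι → ℝ≥0) : ℕ → ι → RR n
  | 0, i => C (b i)
  | r + 1, i => ∑ j, (∑ x, X x * C (W x i j)) * tb W b r j

omit [DecidableEq ι] in
lemma Pg_act (W : Fin n × Fin n → ι → ι → ℝ≥0) (b : ι → ℝ≥0) (r : ℕ) (i : ι) :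
    Pg (XX n) r (fun w => act W w b i) = tb W b r i := by
  induction r generalizing i with
  | zero => rfl
  | succ r ih =>
    have h1 : Pg (XX n) (r + 1) (fun w => act W w b i) =
        ∑ x, X x * Pg (XX n) r (fun w => ∑ j, W x i j * act W w b j) := rfl
    rw [h1, tb]
    simp only [Pg_sum, ih, Finset.mul_sum, Finset.sum_mul]
    rw [Finset.sum_comm]
    refine Finset.sum_congr rfl fun j _ => Finset.sum_congr rfl fun x _ => ?_
    ring

omit [DecidableEq ι] in
lemma Pg_first (a : Fin n × Fin n → ι → ℝ≥0) (W : Fin n × Fin n → ι → ι → ℝ≥0) (b : ι → ℝ≥0)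
    (S : List (Fin n × Fin n) → ℝ≥0) (hS : ∀ x w, S (x :: w) = ∑ i, a x i * act W w b i)
    (r : ℕ) : Pg (XX n) (r + 1) S = ∑ i, (∑ x, X x * C (a x i)) * tb W b r i := by
  have h1 : Pg (XX n) (r + 1) S =
      ∑ x, X x * Pg (XX n) r (fun w => S (x :: w)) := rfl
  rw [h1]
  simp only [hS, Pg_sum, Pg_act, Finset.mul_sum, Finset.sum_mul]
  rw [Finset.sum_comm]
  refine Finset.sum_congr rfl fun j _ => Finset.sum_congr rfl fun x _ => ?_
  ring

lemma mass_Pg (r : ℕ) (S : List (Fin n × Fin n) → ℝ≥0) : mass (Pg (XX n) r S) = sumW r S := by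
  induction r generalizing S with
  | zero =>
    have h1 : Pg (XX n) 0 S = C (S []) := rfl
    rw [h1]
    simp [mass]
  | succ r ih =>
    have h1 : Pg (XX n) (r + 1) S = ∑ x, X x * Pg (XX n) r (fun w => S (x :: w)) := rfl
    rw [h1, mass_sum, sumW_succ]
    refine Finset.sum_congr rfl fun x _ => ?_
    rw [mass_mul, ih]
    simp [mass]

/-- The matrices. -/
noncomputable def MM (a : Fin n × Fin n → ι → ℝ≥0) (W : Fin n × Fin n → ι → ι → ℝ≥0)
    (b : ι → ℝ≥0) (k : ℕ) : Matrix ι ι (RR n) := fun i j =>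
  if k = 0 then ∑ x, X x * C (a x j) else
    if k + 1 < n then ∑ x, X x * C (W x i j) else tb W b 1 i

lemma lin_hom (c : Fin n × Fin n → ℝ≥0) : (∑ x, X x * C (c x) : RR n).IsHomogeneous 1 := by
  refine IsHomogeneous.sum _ _ _ fun x _ => ?_
  exact (isHomogeneous_X _ x).mul (isHomogeneous_C _ (c x))

omit [DecidableEq ι] in
lemma MM_hom (a : Fin n × Fin n → ι → ℝ≥0) (W : Fin n × Fin n → ι → ι → ℝ≥0)
    (b : ι → ℝ≥0) (k : ℕ) (i j : ι) : (MM a W b k i j).IsHomogeneous 1 := by
  unfold MM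
  split_ifs
  · exact lin_hom _
  · exact lin_hom _
  · rw [tb]
    refine IsHomogeneous.sum _ _ _ fun l _ => ?_
    exact (lin_hom _).mul (isHomogeneous_C _ (b l))

lemma Pr_MM_tail (a : Fin n × Fin n → ι → ℝ≥0) (W : Fin n × Fin n → ι → ι → ℝ≥0)
    (b : ι → ℝ≥0) (k : ℕ) : ∀ s i j, 1 ≤ s → s + (k + 1) = n →
      Pr (MM a W b) s (k + 1) i j = tb W b (k + 1) i := by
  induction k with
  | zero =>
    intro s i j hs hsn
    rw [Pr, Pr, Matrix.mul_one, MM, if_neg (by omega), if_neg (by omega)]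
  | succ k ih =>
    intro s i j hs hsn
    rw [Pr, Matrix.mul_apply, tb]
    refine Finset.sum_congr rfl fun l _ => ?_
    rw [ih (s + 1) l j (by omega) (by omega), MM, if_neg (by omega), if_pos (by omega)]

lemma Pr_MM (a : Fin n × Fin n → ι → ℝ≥0) (W : Fin n × Fin n → ι → ι → ℝ≥0)
    (b : ι → ℝ≥0) (hn : 2 ≤ n) (i j : ι) (S : List (Fin n × Fin n) → ℝ≥0)
    (hS : ∀ x w, S (x :: w) = ∑ i, a x i * act W w b i) :
    Pr (MM a W b) 0 n i j = Pg (XX n) n S := by
  obtain ⟨m, hm⟩ : ∃ m, n = m + 1 + 1 := ⟨n - 2, by omega⟩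
  have h1 : Pr (MM a W b) 0 n = Pr (MM a W b) 0 (m + 1 + 1) := by rw [← hm]
  have h2 : Pg (XX n) n S = Pg (XX n) (m + 1 + 1) S := by rw [← hm]
  rw [h1, h2, Pr, Matrix.mul_apply, Pg_first a W b S hS]
  refine Finset.sum_congr rfl fun l _ => ?_
  rw [Pr_MM_tail a W b m (0 + 1) l j le_rfl (by omega), MM, if_pos rfl]

/-- The inequality for automata. -/
theorem aut_bound {e : ℕ} (hn : 2 ≤ n) {S : List (Fin n × Fin n) → ℝ≥0}
    {F : Set (List (Fin n × Fin n) → ℝ≥0)} (hA : Aut e F) (hSF : S ∈ F)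
    (P : Finset (Equiv.Perm (Fin n))) (hP : ∀ σ ∈ P, 1 ≤ (Pg (XX n) n S).coeff (mono σ))
    (L : List ℕ) (hL : L ≠ []) (hsum : L.sum = n) :
    (P.card : ℝ≥0) ^ L.length ≤ (e : ℝ≥0) ^ ex L.length *
      (L.map (fun d => ((n - d).factorial : ℝ≥0))).prod * sumW n S := by
  classical
  obtain ⟨ι, hι, a, W, hcard, hF⟩ := hA
  obtain ⟨b, hb⟩ := hF S hSF
  have hLpos : 1 ≤ L.length := List.length_pos_iff.mpr hL
  rcases P.eq_empty_or_nonempty with hPe | ⟨σ₀, hσ₀⟩
  · rw [hPe, Finset.card_empty, Nat.cast_zero, zero_pow (by omega)]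
    exact zero_le
  · have hne : Nonempty ι := by
      by_contra hcon
      rw [not_nonempty_iff] at hcon
      have h0 : Pg (XX n) n S = 0 := by
        obtain ⟨m, hm⟩ : ∃ m, n = m + 1 := ⟨n - 1, by omega⟩
        have h2 : Pg (XX n) n S = Pg (XX n) (m + 1) S := by rw [← hm]
        rw [h2, Pg_first a W b S hb]
        simp
      have := hP σ₀ hσ₀
      rw [h0] at this
      simp at this
    obtain ⟨i₀⟩ := hne
    have h1 := seg (MM a W b) (MM_hom a W b) L.length hLpos L rfl 0 i₀ i₀
    rw [hsum, Pr_MM a W b hn i₀ i₀ S hb, mass_Pg] at h1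
    have h2 := ell_ge (k := L.length) (by omega) (G (Pg (XX n) n S)) P
      (fun σ hσ => (hP σ hσ).trans (coeff_le_G _ σ))
    rw [Fintype.card_perm, Fintype.card_fin] at h2
    have h3 := h2.trans h1
    have hfac : (0 : ℝ≥0) < (n.factorial : ℝ≥0) := by exact_mod_cast n.factorial_pos
    have h4 : (L.map (fun d => ((n - d).factorial : ℝ≥0) / (n.factorial : ℝ≥0))).prod =
        (L.map (fun d => ((n - d).factorial : ℝ≥0))).prod / (n.factorial : ℝ≥0) ^ L.length := by
      clear h1 h2 h3 hsum hL hLpos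
      induction L with
      | nil => simp
      | cons d L ih =>
        simp only [List.map_cons, List.prod_cons, List.length_cons, ih]
        rw [pow_succ', div_mul_div_comm]
    rw [h4, div_pow, div_le_iff₀ (by positivity)] at h3
    have h5 : (Fintype.card ι : ℝ≥0) ^ ex L.length *
        ((L.map (fun d => ((n - d).factorial : ℝ≥0))).prod / (n.factorial : ℝ≥0) ^ L.length) *
        sumW n S * (n.factorial : ℝ≥0) ^ L.length = (Fintype.card ι : ℝ≥0) ^ ex L.length *
        (L.map (fun d => ((n - d).factorial : ℝ≥0))).prod * sumW n S := by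
      field_simp
    rw [h5] at h3
    refine h3.trans ?_
    have h6 : (Fintype.card ι : ℝ≥0) ≤ (e : ℝ≥0) := by exact_mod_cast hcard
    gcongr

end words

/-- The nodes labelled by variables. -/
noncomputable def varNodes {K : Type u} {σ : Type v} (Φ : Circuit K σ) : Finset (Fin Φ.N) := by
  classical exact Finset.univ.filter (fun i => ∃ x, Φ.node i = Node.var x)

lemma mem_varNodes {K : Type u} {σ : Type v} (Φ : Circuit K σ) (i : Fin Φ.N) :
    i ∈ varNodes Φ ↔ ∃ x, Φ.node i = Node.var x := by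
  classical
  simp [varNodes]

/-- A field with an absolute value is a normed field. -/
@[reducible] noncomputable def ofAbs {K : Type u} [F : Field K] (w : AbsoluteValue K ℝ) :
    NormedField K :=
  { F with
    norm := fun x => w x
    dist := fun x y => w (x - y)
    dist_self := fun x => by simp
    dist_comm := fun x y => w.map_sub x y
    dist_triangle := fun x y z => w.sub_le x y z
    eq_of_dist_eq_zero := fun {x y} hxy => by
      have h1 : w (x - y) = 0 := hxy
      exact sub_eq_zero.mp (w.eq_zero.mp h1)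
    dist_eq := fun x y => by
      change w (x - y) = w (-x + y)
      rw [w.map_sub]
      congr 1
      ring
    norm_mul := fun x y => w.map_mul x y }

lemma mass_ofAbs {K : Type u} [Field K] {σ : Type v} (w : AbsoluteValue K ℝ) (Φ : Circuit K σ)
    (i : Fin Φ.N) : ((@Pool.Agent.H691R2.Skew.mass K σ (ofAbs w) Φ i : ℝ≥0) : ℝ) =
      Pool.Agent.H691R2.MM.cost w Φ i := by
  obtain ⟨n, hn⟩ : ∃ n, i.1 = n := ⟨_, rfl⟩
  induction n using Nat.strong_induction_on generalizing i with
  | _ n ih =>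
    let inst := ofAbs w
    cases hnode : Φ.node i with
    | var v =>
      rw [Pool.Agent.H691R2.MM.cost_var w Φ hnode, Pool.Agent.H691R2.Skew.mass_var Φ hnode]; simp
    | const c =>
      rw [Pool.Agent.H691R2.MM.cost_const w Φ hnode, Pool.Agent.H691R2.Skew.mass_const Φ hnode]
      rfl
    | add l r =>
      have hl : l.1 < i.1 := Φ.lt i l false (by rw [hnode]; rfl)
      have hr : r.1 < i.1 := Φ.lt i r true (by rw [hnode]; rfl)
      rw [Pool.Agent.H691R2.MM.cost_add w Φ hnode, Pool.Agent.H691R2.Skew.mass_add Φ hnode,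
        NNReal.coe_add, ih l.1 (by omega) l rfl, ih r.1 (by omega) r rfl]
    | mul l r =>
      have hl : l.1 < i.1 := Φ.lt i l false (by rw [hnode]; rfl)
      have hr : r.1 < i.1 := Φ.lt i r true (by rw [hnode]; rfl)
      rw [Pool.Agent.H691R2.MM.cost_mul w Φ hnode, Pool.Agent.H691R2.Skew.mass_mul Φ hnode,
        NNReal.coe_mul, ih l.1 (by omega) l rfl, ih r.1 (by omega) r rfl]

lemma of_mem_filter {α : Type*} (s : Finset α) (p : α → Prop) (h : DecidablePred p) (a : α)
    (ha : a ∈ @Finset.filter α p h s) : p a := (Finset.mem_filter.mp ha).2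

/-- **The composition inequality for weakly skew circuits.** -/
theorem ws_bound {K : Type u} [Field K] (w : AbsoluteValue K ℝ) {n : ℕ} (hn : 2 ≤ n)
    (Φ : Circuit K (Fin n × Fin n)) (hΦ : Φ.WeaklySkew) (o : Fin Φ.N)
    (P : Finset (Equiv.Perm (Fin n)))
    (hP : ∀ σ ∈ P, 1 ≤ w ((Φ.value o).coeff (mono σ)))
    (L : List ℕ) (hL : L ≠ []) (hsum : L.sum = n) :
    (P.card : ℝ) ^ L.length ≤ ((varNodes Φ).card : ℝ) ^ ex L.length *
      (L.map (fun d => ((n - d).factorial : ℝ))).prod * Pool.Agent.H691R2.MM.cost w Φ o := by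
  classical
  let inst : NormedField K := ofAbs w
  obtain ⟨χ⟩ := hΦ.exists_choice
  have hA := Pool.Agent.H691R2.Skew.Aut.le_of_le (Finset.card_le_card (fun a ha =>
    (mem_varNodes Φ a).mpr (of_mem_filter _ _ _ a ha).2)) (aut_sub χ o)
  have hcoef : ∀ σ ∈ P, 1 ≤ (Pg (XX n) n (ser χ o)).coeff (mono σ) := by
    intro σ hσ
    have h1 := coeff_le_Pg χ o (Finsupp.toMultiset (mono σ))
    have e0 : @Multiset.toFinsupp (Fin n × Fin n) (fun a b => Classical.propDecidable (a = b))
        (Finsupp.toMultiset (mono σ)) = mono σ :=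
      @Finsupp.toMultiset_toFinsupp _ (fun a b => Classical.propDecidable (a = b)) (mono σ)
    rw [e0, Finsupp.card_toMultiset] at h1
    have h2 : ((mono σ).sum fun _ => id) = n := by
      have h3 := degree_mono σ
      rw [Finsupp.degree_apply] at h3
      exact h3
    rw [h2] at h1
    refine le_trans ?_ h1
    have h4 := hP σ hσ
    rw [← NNReal.coe_le_coe]
    exact h4
  have hb := aut_bound hn hA ⟨o, Reu.self χ o, rfl⟩ P hcoef L hL hsum
  have hm : sumW n (ser χ o) ≤ Pool.Agent.H691R2.Skew.mass Φ o := by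
    refine le_trans ?_ (sum_sumW_le χ o (n + 1))
    exact Finset.single_le_sum (f := fun r => sumW r (ser χ o)) (fun _ _ => zero_le)
      (Finset.self_mem_range_succ n)
  have hfin : (P.card : ℝ≥0) ^ L.length ≤ ((varNodes Φ).card : ℝ≥0) ^ ex L.length *
      (L.map (fun d => ((n - d).factorial : ℝ≥0))).prod *
        Pool.Agent.H691R2.Skew.mass Φ o := by
    exact hb.trans (mul_le_mul' le_rfl hm)
  rw [← NNReal.coe_le_coe] at hfin
  have hprod : (((L.map (fun d => ((n - d).factorial : ℝ≥0))).prod : ℝ≥0) : ℝ) =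
      (L.map (fun d => ((n - d).factorial : ℝ))).prod := by
    clear hfin hb hsum hL
    induction L with
    | nil => simp
    | cons d L ih => simp only [List.map_cons, List.prod_cons, NNReal.coe_mul, ih,
        NNReal.coe_natCast]
  rw [NNReal.coe_mul, NNReal.coe_mul, hprod, mass_ofAbs w Φ o] at hfin
  simpa only [NNReal.coe_pow, NNReal.coe_natCast] using hfin

end Pool.Agent.W463.CT.WS
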