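import Mathlib
import Pool.Agent.W463.CT.WS

set_option autoImplicit false

/-! # Blocks of almost equal length -/

namespace Pool.Agent.W463.CT.Equal

open Pool.Agent.W463.CT.Seg

/-- the composition of `n` into `Q` almost equal parts -/
def blocks (n Q : ℕ) : List ℕ :=
  List.replicate (n % Q) (n / Q + 1) ++ List.replicate (Q - n % Q) (n / Q)

lemma length_blocks (n Q : ℕ) (hQ : 1 ≤ Q) : (blocks n Q).length = Q := by
  have : n % Q < Q := Nat.mod_lt _ hQ
  simp [blocks]
  omega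

lemma sum_blocks (n Q : ℕ) (hQ : 1 ≤ Q) : (blocks n Q).sum = n := by
  have h1 : n % Q < Q := Nat.mod_lt _ hQ
  have h2 := Nat.mod_add_div n Q
  obtain ⟨r, hr⟩ : ∃ r, Q = n % Q + r := ⟨Q - n % Q, by omega⟩
  have h3 : Q - n % Q = r := by omega
  simp only [blocks, List.sum_append, List.sum_replicate, smul_eq_mul, h3]
  calc n % Q * (n / Q + 1) + r * (n / Q) = n % Q + (n % Q + r) * (n / Q) := by ring
    _ = n % Q + Q * (n / Q) := by rw [← hr]
    _ = n := h2

/-- `n - ⌈n / Q⌉ + 1` is at least `(1 - 1 / Q) n`, and every part is at most `⌈n / Q⌉`. -/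
lemma exists_D (n Q : ℕ) (hQ : 1 ≤ Q) (hQn : Q ≤ n) : ∃ D, 1 ≤ D ∧ D ≤ n ∧
    (∀ d ∈ blocks n Q, d ≤ D) ∧ (1 - 1 / (Q : ℝ)) * n ≤ ((n - D + 1 : ℕ) : ℝ) := by
  have h1 : n % Q < Q := Nat.mod_lt _ hQ
  have h2 := Nat.mod_add_div n Q
  have hQ0 : (0 : ℝ) < Q := by exact_mod_cast hQ
  have hq : 1 ≤ n / Q := (Nat.one_le_div_iff hQ).mpr hQn
  have hmul : n / Q * 1 ≤ Q * (n / Q) := by
    rw [mul_comm]; exact Nat.mul_le_mul_right _ hQ
  by_cases h0 : n % Q = 0
  · refine ⟨n / Q, hq, by omega, ?_, ?_⟩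
    · intro d hd
      rw [blocks, h0] at hd
      simp at hd
      omega
    · have h3 : ((n / Q : ℕ) : ℝ) * Q = n := by
        have : n / Q * Q = n := by
          rw [mul_comm]; omega
        exact_mod_cast this
      have h4 : n - n / Q + 1 + n / Q = n + 1 := by omega
      have h5 : ((n - n / Q + 1 : ℕ) : ℝ) + ((n / Q : ℕ) : ℝ) = n + 1 := by exact_mod_cast h4
      have h6 : (n : ℝ) / Q = ((n / Q : ℕ) : ℝ) := by
        rw [div_eq_iff hQ0.ne']; exact h3.symm
      have h7 : (1 - 1 / (Q : ℝ)) * n = n - (n : ℝ) / Q := by ring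
      rw [h7, h6]
      linarith
  · have hlt : n / Q + 1 ≤ n := by
      rcases Nat.lt_or_ge 1 Q with hQ1 | hQ1
      · have : 2 * (n / Q) ≤ Q * (n / Q) := Nat.mul_le_mul_right _ hQ1
        omega
      · exfalso
        have : Q = 1 := by omega
        rw [this, Nat.mod_one] at h0
        exact h0 rfl
    refine ⟨n / Q + 1, by omega, hlt, ?_, ?_⟩
    · intro d hd
      rw [blocks, List.mem_append] at hd
      rcases hd with hd | hd
      · exact (List.eq_of_mem_replicate hd).le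
      · have := List.eq_of_mem_replicate hd
        omega
    · have h4 : n - (n / Q + 1) + 1 + n / Q = n := by omega
      have h5 : ((n - (n / Q + 1) + 1 : ℕ) : ℝ) + ((n / Q : ℕ) : ℝ) = n := by exact_mod_cast h4
      have h6 : ((n / Q : ℕ) : ℝ) ≤ (n : ℝ) / Q := Nat.cast_div_le
      have h7 : (1 - 1 / (Q : ℝ)) * n = n - (n : ℝ) / Q := by ring
      rw [h7]
      linarith

lemma prod_blocks_le (n D : ℕ) (hD : D ≤ n) (L : List ℕ) (hL : ∀ d ∈ L, d ≤ D) :
    (L.map (fun d => ((n - d).factorial : ℝ))).prod * ((n - D + 1 : ℕ) : ℝ) ^ L.sum ≤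
      (n.factorial : ℝ) ^ L.length := by
  induction L with
  | nil => simp
  | cons d L ih =>
    have h1 : (n - d).factorial * (n - D + 1) ^ d ≤ n.factorial := by
      have hd : d ≤ D := hL d (List.mem_cons_self)
      have h3 := Nat.factorial_mul_pow_le_factorial (m := n - d) (n := d)
      have h4 : n - d + d = n := by omega
      rw [h4] at h3
      refine le_trans ?_ h3
      exact Nat.mul_le_mul_left _ (Nat.pow_le_pow_left (by omega) _)
    have h2 := ih (fun x hx => hL x (List.mem_cons_of_mem _ hx))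
    simp only [List.map_cons, List.prod_cons, List.sum_cons, List.length_cons, pow_add, pow_succ]
    have h1' : ((n - d).factorial : ℝ) * ((n - D + 1 : ℕ) : ℝ) ^ d ≤ (n.factorial : ℝ) := by
      exact_mod_cast h1
    have h0 : 0 ≤ (L.map (fun d => ((n - d).factorial : ℝ))).prod := by
      apply List.prod_nonneg
      intro x hx
      rw [List.mem_map] at hx
      obtain ⟨y, _, rfl⟩ := hx
      positivity
    calc ((n - d).factorial : ℝ) * (L.map (fun d => ((n - d).factorial : ℝ))).prod *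
          (((n - D + 1 : ℕ) : ℝ) ^ d * ((n - D + 1 : ℕ) : ℝ) ^ L.sum)
        = ((L.map (fun d => ((n - d).factorial : ℝ))).prod * ((n - D + 1 : ℕ) : ℝ) ^ L.sum) *
          (((n - d).factorial : ℝ) * ((n - D + 1 : ℕ) : ℝ) ^ d) := by ring
      _ ≤ (n.factorial : ℝ) ^ L.length * (n.factorial : ℝ) := by
          apply mul_le_mul h2 h1' (by positivity) (by positivity)

/-- From the composition inequality to `Q` almost equal blocks. -/
lemma equal_blocks {n Q : ℕ} (hQ : 1 ≤ Q) (hQn : Q ≤ n) {A M : ℝ}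
    (h : ∀ L : List ℕ, L ≠ [] → L.sum = n → (n.factorial : ℝ) ^ L.length ≤
      A ^ ex L.length * (L.map (fun d => ((n - d).factorial : ℝ))).prod * M) :
    ((1 - 1 / (Q : ℝ)) * n) ^ n ≤ A ^ ex Q * M := by
  obtain ⟨D, hD1, hDn, hD, hbase⟩ := exists_D n Q hQ hQn
  have hlen := length_blocks n Q hQ
  have hsum := sum_blocks n Q hQ
  have hne : blocks n Q ≠ [] := by
    intro h0
    rw [h0] at hlen
    simp at hlen
    omega
  have h1 := h _ hne hsum
  have h2 := prod_blocks_le n D hDn (blocks n Q) hD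
  rw [hlen] at h1 h2
  rw [hsum] at h2
  have hb0 : 0 ≤ (1 - 1 / (Q : ℝ)) * n := by
    have : 1 / (Q : ℝ) ≤ 1 := by
      rw [div_le_one (by exact_mod_cast hQ)]
      exact_mod_cast hQ
    have h3 : 0 ≤ 1 - 1 / (Q : ℝ) := by linarith
    positivity
  have h3 : ((1 - 1 / (Q : ℝ)) * n) ^ n ≤ ((n - D + 1 : ℕ) : ℝ) ^ n :=
    pow_le_pow_left₀ hb0 hbase n
  refine h3.trans ?_
  set X := ((blocks n Q).map (fun d => ((n - d).factorial : ℝ))).prod with hX
  have hX0 : 0 ≤ X := by
    apply List.prod_nonneg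
    intro x hx
    rw [List.mem_map] at hx
    obtain ⟨y, _, rfl⟩ := hx
    positivity
  have hf : (0 : ℝ) < (n.factorial : ℝ) ^ Q := by
    have : (0 : ℝ) < n.factorial := by exact_mod_cast n.factorial_pos
    positivity
  have hXpos : 0 < X := by
    rcases hX0.lt_or_eq with h4 | h4
    · exact h4
    · rw [← h4] at h1
      simp at h1
      linarith
  -- `X (n - D + 1) ^ n ≤ n! ^ Q ≤ A ^ ex Q * X * M`
  have h5 : X * ((n - D + 1 : ℕ) : ℝ) ^ n ≤ X * (A ^ ex Q * M) := by
    calc X * ((n - D + 1 : ℕ) : ℝ) ^ n ≤ (n.factorial : ℝ) ^ Q := h2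
      _ ≤ A ^ ex Q * X * M := h1
      _ = X * (A ^ ex Q * M) := by ring
  exact le_of_mul_le_mul_left h5 hXpos

end Pool.Agent.W463.CT.Equal
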