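import Mathlib
import Pool.Agent.W463.CT.Perm

set_option autoImplicit false

/-! # The coefficients of the permanent and the determinant -/

namespace Pool.Agent.W463.CT.PermCoef

open MvPolynomial Finset
open Pool.Agent.W463.CT

universe u

/-- The `n × n` matrix of variables. -/
noncomputable def gen (K : Type u) [Field K] (n : ℕ) :
    Matrix (Fin n) (Fin n) (MvPolynomial (Fin n × Fin n) K) :=
  Matrix.of fun i j => X (i, j)

lemma mono_injective (n : ℕ) : Function.Injective (mono (n := n)) := by
  intro σ τ h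
  ext i
  have h1 := congrArg (fun m => m (i, σ i)) h
  simp only [mono_apply, if_true] at h1
  by_contra hne
  rw [if_neg (fun h2 => hne (congrArg Fin.val h2.symm))] at h1
  exact one_ne_zero h1

lemma prod_gen (K : Type u) [Field K] (n : ℕ) (τ : Equiv.Perm (Fin n)) :
    ∏ i, gen K n (τ i) i = monomial (mono τ⁻¹) 1 := by
  have h1 : ∏ i, gen K n (τ i) i = ∏ i, (X (i, τ⁻¹ i) : MvPolynomial (Fin n × Fin n) K) := by
    rw [← Equiv.prod_comp τ (fun i => (X (i, τ⁻¹ i) : MvPolynomial (Fin n × Fin n) K))]
    refine Finset.prod_congr rfl fun i _ => ?_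
    simp [gen]
  rw [h1]
  unfold mono
  rw [monomial_finsupp_sum_index_aux]
where
  monomial_finsupp_sum_index_aux {K : Type u} [Field K] {n : ℕ} {τ : Equiv.Perm (Fin n)} :
      ∏ i, (X (i, τ⁻¹ i) : MvPolynomial (Fin n × Fin n) K) =
      monomial (∑ i, Finsupp.single (i, τ⁻¹ i) 1) 1 := by
    classical
    have : ∀ s : Finset (Fin n), ∏ i ∈ s, (X (i, τ⁻¹ i) : MvPolynomial (Fin n × Fin n) K) =
        monomial (∑ i ∈ s, Finsupp.single (i, τ⁻¹ i) 1) 1 := by
      intro s
      induction s using Finset.induction_on with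
      | empty => simp
      | insert a s ha ih =>
        rw [Finset.prod_insert ha, Finset.sum_insert ha, ih, X, monomial_mul, mul_one]
    exact this Finset.univ

lemma coeff_permanent (K : Type u) [Field K] (n : ℕ) (σ : Equiv.Perm (Fin n)) :
    (gen K n).permanent.coeff (mono σ) = 1 := by
  classical
  rw [Matrix.permanent, coeff_sum]
  simp only [prod_gen, coeff_monomial]
  rw [Finset.sum_eq_single σ⁻¹]
  · simp
  · intro τ _ hτ
    rw [if_neg]
    intro h
    apply hτ
    rw [← mono_injective n h, inv_inv]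
  · intro h; exact absurd (Finset.mem_univ _) h

lemma coeff_det (K : Type u) [Field K] (n : ℕ) (σ : Equiv.Perm (Fin n)) :
    (gen K n).det.coeff (mono σ) = 1 ∨ (gen K n).det.coeff (mono σ) = -1 := by
  classical
  rw [Matrix.det_apply, coeff_sum]
  simp only [prod_gen]
  rw [Finset.sum_eq_single σ⁻¹]
  · rcases Int.units_eq_one_or (Equiv.Perm.sign σ⁻¹) with h | h
    · left; rw [h]; simp
    · right; rw [h]; simp
  · intro τ _ hτ
    have h0 : coeff (mono σ) (monomial (mono τ⁻¹) (1 : K)) = 0 := by
      rw [coeff_monomial, if_neg]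
      intro h
      apply hτ
      rw [← mono_injective n h, inv_inv]
    rcases Int.units_eq_one_or (Equiv.Perm.sign τ) with h | h
    · rw [h, one_smul, h0]
    · rw [h, Units.neg_smul, one_smul, coeff_neg, h0, neg_zero]
  · intro h; exact absurd (Finset.mem_univ _) h

end Pool.Agent.W463.CT.PermCoef
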