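import Mathlib
import Pool.Agent.W463.CT.Basic

set_option autoImplicit false

/-! # The decomposition of homogeneous components of high degree -/

namespace Pool.Agent.W463.CT

open MvPolynomial Finset
open scoped NNReal
open Pool.Agent.H567.Nec Pool.Agent.H691R2.MM

universe u v

variable {K : Type u} {σ : Type v} [Field K] (w : AbsoluteValue K ℝ) (Φ : Circuit K σ)

/-- The multiplication gates. -/
noncomputable def mulGates {K : Type u} {σ : Type v} (Φ : Circuit K σ) : Finset (Fin Φ.N) := by
  classical exact Finset.univ.filter (fun i => ∃ l r, Φ.node i = Node.mul l r)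

omit [Field K] in
lemma mem_mulGates {i : Fin Φ.N} : i ∈ mulGates Φ ↔ ∃ l r, Φ.node i = Node.mul l r := by
  classical
  simp [mulGates]

/-- first child -/
def lft (i : Fin Φ.N) : Fin Φ.N := match Φ.node i with
  | .mul l _ => l
  | _ => i

/-- second child -/
def rgt (i : Fin Φ.N) : Fin Φ.N := match Φ.node i with
  | .mul _ r => r
  | _ => i

omit [Field K] in
lemma lft_mul {i l r : Fin Φ.N} (h : Φ.node i = Node.mul l r) : lft Φ i = l := by
  unfold lft; rw [h]

omit [Field K] in
lemma rgt_mul {i l r : Fin Φ.N} (h : Φ.node i = Node.mul l r) : rgt Φ i = r := by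
  unfold rgt; rw [h]

/-- homogeneous component of the absolute polynomial -/
noncomputable def H (v : Fin Φ.N) (e : ℕ) : MvPolynomial σ ℝ≥0 := hc e (absv w Φ v)

/-- The part of the product at a gate where both factors fall into lower blocks. -/
noncomputable def B (D : ℕ) (u : Fin Φ.N) (e : ℕ) : MvPolynomial σ ℝ≥0 :=
  ∑ p ∈ Finset.HasAntidiagonal.antidiagonal e,
    if p.1 / D < e / D ∧ p.2 / D < e / D then H w Φ (lft Φ u) p.1 * H w Φ (rgt Φ u) p.2 else 0

lemma hc_eq_zero {f : MvPolynomial σ ℝ≥0} {d e : ℕ} (hf : f.IsHomogeneous d) (h : e ≠ d) :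
    hc e f = 0 := by
  refine MvPolynomial.ext _ _ fun m => ?_
  rw [coeff_homogeneousComponent]
  split_ifs with h1
  · by_contra h2
    have h3 := hf h2
    apply h
    rw [← h1, ← h3]
    exact DFunLike.congr_fun (Finsupp.degree_eq_weight_one (R := ℕ)) m
  · simp

lemma H_isHom (v : Fin Φ.N) (e : ℕ) : (H w Φ v e).IsHomogeneous e := hc_isHom e _

theorem decomp (D M : ℕ) (hD : 2 ≤ D) (v : Fin Φ.N) :
    ∀ e, D ≤ e → e < M → ∃ S : Fin Φ.N → ℕ → MvPolynomial σ ℝ≥0,
      (∀ u e', (S u e').IsHomogeneous (e - e')) ∧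
      (∀ u e', S u e' ≠ 0 → u ∈ mulGates Φ ∧ e' ≤ e ∧ e' / D = e / D) ∧
      H w Φ v e = ∑ u, ∑ e' ∈ Finset.range M, S u e' * B w Φ D u e' := by
  classical
  induction v using node_induction Φ with
  | hvar i x h =>
    intro e he _
    refine ⟨fun _ _ => 0, fun _ _ => isHomogeneous_zero _ _ _, fun _ _ h => absurd rfl h, ?_⟩
    rw [H, absv_var w Φ h, hc_eq_zero (isHomogeneous_X _ _) (by omega)]
    simp
  | hconst i c h =>
    intro e he _
    refine ⟨fun _ _ => 0, fun _ _ => isHomogeneous_zero _ _ _, fun _ _ h => absurd rfl h, ?_⟩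
    rw [H, absv_const w Φ h, hc_eq_zero (isHomogeneous_C _ _) (by omega)]
    simp
  | hadd i l r h hl hr =>
    intro e he heM
    obtain ⟨S1, a1, b1, c1⟩ := hl e he heM
    obtain ⟨S2, a2, b2, c2⟩ := hr e he heM
    refine ⟨fun u e' => S1 u e' + S2 u e', fun u e' => (a1 u e').add (a2 u e'), ?_, ?_⟩
    · intro u e' hne
      by_cases h1 : S1 u e' = 0
      · apply b2
        intro h2
        apply hne
        change S1 u e' + S2 u e' = 0
        rw [h1, h2, add_zero]
      · exact b1 u e' h1
    · rw [H, absv_add w Φ h]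
      have : hc e (absv w Φ l + absv w Φ r) = H w Φ l e + H w Φ r e := map_add _ _ _
      rw [this, c1, c2, ← Finset.sum_add_distrib]
      refine Finset.sum_congr rfl fun u _ => ?_
      rw [← Finset.sum_add_distrib]
      exact Finset.sum_congr rfl fun e' _ => (add_mul _ _ _).symm
  | hmul i l r h hl hr =>
    intro e he heM
    have hD0 : 0 < D := by omega
    have hq1 : 1 ≤ e / D := (Nat.one_le_div_iff hD0).mpr he
    have hl' : ∀ e, ∃ S : Fin Φ.N → ℕ → MvPolynomial σ ℝ≥0, D ≤ e ∧ e < M →
      (∀ u e', (S u e').IsHomogeneous (e - e')) ∧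
      (∀ u e', S u e' ≠ 0 → u ∈ mulGates Φ ∧ e' ≤ e ∧ e' / D = e / D) ∧
      H w Φ l e = ∑ u, ∑ e' ∈ Finset.range M, S u e' * B w Φ D u e' := by
      intro e
      by_cases hc1 : D ≤ e ∧ e < M
      · obtain ⟨S, hS⟩ := hl e hc1.1 hc1.2
        exact ⟨S, fun _ => hS⟩
      · exact ⟨fun _ _ => 0, fun hc2 => absurd hc2 hc1⟩
    have hr' : ∀ e, ∃ S : Fin Φ.N → ℕ → MvPolynomial σ ℝ≥0, D ≤ e ∧ e < M →
      (∀ u e', (S u e').IsHomogeneous (e - e')) ∧
      (∀ u e', S u e' ≠ 0 → u ∈ mulGates Φ ∧ e' ≤ e ∧ e' / D = e / D) ∧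
      H w Φ r e = ∑ u, ∑ e' ∈ Finset.range M, S u e' * B w Φ D u e' := by
      intro e
      by_cases hc1 : D ≤ e ∧ e < M
      · obtain ⟨S, hS⟩ := hr e hc1.1 hc1.2
        exact ⟨S, fun _ => hS⟩
      · exact ⟨fun _ _ => 0, fun hc2 => absurd hc2 hc1⟩
    choose S1 hS1 using hl'
    choose S2 hS2 using hr'
    -- facts on pairs
    have hp1 : ∀ p ∈ Finset.HasAntidiagonal.antidiagonal e, p.1 / D = e / D →
        D ≤ p.1 ∧ p.1 < M ∧ ¬ (p.2 / D = e / D) := by
      intro p hp hc1
      rw [Finset.HasAntidiagonal.mem_antidiagonal] at hp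
      have h2 : D ≤ p.1 := (Nat.one_le_div_iff hD0).mp (by omega)
      refine ⟨h2, by omega, fun hc2 => ?_⟩
      have h3 : p.1 / D + p.2 / D ≤ e / D := by
        rw [← hp]; exact Nat.div_add_div_le_add_div
      omega
    have hp2 : ∀ p ∈ Finset.HasAntidiagonal.antidiagonal e, p.2 / D = e / D →
        D ≤ p.2 ∧ p.2 < M ∧ ¬ (p.1 / D = e / D) := by
      intro p hp hc1
      rw [Finset.HasAntidiagonal.mem_antidiagonal] at hp
      have h2 : D ≤ p.2 := (Nat.one_le_div_iff hD0).mp (by omega)
      refine ⟨h2, by omega, fun hc2 => ?_⟩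
      have h3 : p.1 / D + p.2 / D ≤ e / D := by
        rw [← hp]; exact Nat.div_add_div_le_add_div
      omega
    have hle1 : ∀ p ∈ Finset.HasAntidiagonal.antidiagonal e, p.1 / D ≤ e / D ∧ p.2 / D ≤ e / D := by
      intro p hp
      rw [Finset.HasAntidiagonal.mem_antidiagonal] at hp
      exact ⟨Nat.div_le_div_right (by omega), Nat.div_le_div_right (by omega)⟩
    set S : Fin Φ.N → ℕ → MvPolynomial σ ℝ≥0 := fun u e' =>
      (if u = i ∧ e' = e then 1 else 0) +
      (∑ p ∈ Finset.HasAntidiagonal.antidiagonal e,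
        if p.1 / D = e / D then S1 p.1 u e' * H w Φ r p.2 else 0) +
      (∑ p ∈ Finset.HasAntidiagonal.antidiagonal e,
        if p.2 / D = e / D then S2 p.2 u e' * H w Φ l p.1 else 0) with hS
    refine ⟨S, ?_, ?_, ?_⟩
    · intro u e'
      rw [hS]
      refine IsHomogeneous.add (IsHomogeneous.add ?_ ?_) ?_
      · split_ifs with hc1
        · rw [hc1.2, Nat.sub_self]; exact isHomogeneous_one _ _
        · exact isHomogeneous_zero _ _ _
      · refine IsHomogeneous.sum _ _ _ fun p hp => ?_
        split_ifs with hc1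
        · obtain ⟨ha, hb, hc⟩ := hp1 p hp hc1
          obtain ⟨a1, b1, -⟩ := hS1 p.1 ⟨ha, hb⟩
          by_cases hz : S1 p.1 u e' = 0
          · rw [hz, zero_mul]; exact isHomogeneous_zero _ _ _
          · obtain ⟨_, hle, _⟩ := b1 u e' hz
            have := (a1 u e').mul (H_isHom w Φ r p.2)
            rw [Finset.HasAntidiagonal.mem_antidiagonal] at hp
            have h5 : p.1 - e' + p.2 = e - e' := by omega
            rwa [h5] at this
        · exact isHomogeneous_zero _ _ _
      · refine IsHomogeneous.sum _ _ _ fun p hp => ?_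
        split_ifs with hc1
        · obtain ⟨ha, hb, hc⟩ := hp2 p hp hc1
          obtain ⟨a1, b1, -⟩ := hS2 p.2 ⟨ha, hb⟩
          by_cases hz : S2 p.2 u e' = 0
          · rw [hz, zero_mul]; exact isHomogeneous_zero _ _ _
          · obtain ⟨_, hle, _⟩ := b1 u e' hz
            have := (a1 u e').mul (H_isHom w Φ l p.1)
            rw [Finset.HasAntidiagonal.mem_antidiagonal] at hp
            have h5 : p.2 - e' + p.1 = e - e' := by omega
            rwa [h5] at this
        · exact isHomogeneous_zero _ _ _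
    · intro u e' hne
      by_contra hcon
      apply hne
      rw [hS]
      simp only
      rw [if_neg, zero_add, Finset.sum_eq_zero, Finset.sum_eq_zero, add_zero]
      · intro p hp
        split_ifs with hc1
        · obtain ⟨ha, hb, hc⟩ := hp2 p hp hc1
          obtain ⟨-, b1, -⟩ := hS2 p.2 ⟨ha, hb⟩
          by_cases hz : S2 p.2 u e' = 0
          · rw [hz, zero_mul]
          · exfalso
            obtain ⟨h6, h7, h8⟩ := b1 u e' hz
            rw [Finset.HasAntidiagonal.mem_antidiagonal] at hp
            exact hcon ⟨h6, by omega, by rw [h8, hc1]⟩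
        · rfl
      · intro p hp
        split_ifs with hc1
        · obtain ⟨ha, hb, hc⟩ := hp1 p hp hc1
          obtain ⟨-, b1, -⟩ := hS1 p.1 ⟨ha, hb⟩
          by_cases hz : S1 p.1 u e' = 0
          · rw [hz, zero_mul]
          · exfalso
            obtain ⟨h6, h7, h8⟩ := b1 u e' hz
            rw [Finset.HasAntidiagonal.mem_antidiagonal] at hp
            exact hcon ⟨h6, by omega, by rw [h8, hc1]⟩
        · rfl
      · rintro ⟨rfl, rfl⟩
        exact hcon ⟨(mem_mulGates Φ).mpr ⟨l, r, h⟩, le_rfl, rfl⟩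
    · -- the identity
      have e1 : H w Φ i e = ∑ p ∈ Finset.HasAntidiagonal.antidiagonal e,
          H w Φ l p.1 * H w Φ r p.2 := by
        rw [H, absv_mul w Φ h, hc_mul]; rfl
      have e2 : ∀ p ∈ Finset.HasAntidiagonal.antidiagonal e, H w Φ l p.1 * H w Φ r p.2 =
          (if p.1 / D < e / D ∧ p.2 / D < e / D then H w Φ l p.1 * H w Φ r p.2 else 0) +
          (if p.1 / D = e / D then H w Φ l p.1 * H w Φ r p.2 else 0) +
          (if p.2 / D = e / D then H w Φ l p.1 * H w Φ r p.2 else 0) := by
        intro p hp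
        obtain ⟨h3, h4⟩ := hle1 p hp
        by_cases hc1 : p.1 / D = e / D
        · obtain ⟨_, _, h5⟩ := hp1 p hp hc1
          rw [if_neg (by omega), if_pos hc1, if_neg h5]; simp
        · by_cases hc2 : p.2 / D = e / D
          · rw [if_neg (by omega), if_neg hc1, if_pos hc2]; simp
          · rw [if_pos (by omega), if_neg hc1, if_neg hc2]; simp
      rw [e1, Finset.sum_congr rfl e2, Finset.sum_add_distrib, Finset.sum_add_distrib]
      have e3 : ∑ u, ∑ e' ∈ Finset.range M, S u e' * B w Φ D u e' =
          (∑ u, ∑ e' ∈ Finset.range M, (if u = i ∧ e' = e then 1 else 0) * B w Φ D u e') +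
          (∑ u, ∑ e' ∈ Finset.range M, (∑ p ∈ Finset.HasAntidiagonal.antidiagonal e,
            if p.1 / D = e / D then S1 p.1 u e' * H w Φ r p.2 else 0) * B w Φ D u e') +
          (∑ u, ∑ e' ∈ Finset.range M, (∑ p ∈ Finset.HasAntidiagonal.antidiagonal e,
            if p.2 / D = e / D then S2 p.2 u e' * H w Φ l p.1 else 0) * B w Φ D u e') := by
        rw [← Finset.sum_add_distrib, ← Finset.sum_add_distrib]
        refine Finset.sum_congr rfl fun u _ => ?_
        rw [← Finset.sum_add_distrib, ← Finset.sum_add_distrib]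
        refine Finset.sum_congr rfl fun e' _ => ?_
        rw [hS]; simp only; rw [add_mul, add_mul]
      rw [e3]
      congr 1
      · congr 1
        · symm
          rw [Finset.sum_eq_single i, Finset.sum_eq_single e]
          · rw [if_pos ⟨rfl, rfl⟩, one_mul, B, lft_mul Φ h, rgt_mul Φ h]
          · intro e' _ hne; rw [if_neg (by tauto), zero_mul]
          · intro hne; exact absurd (Finset.mem_range.mpr heM) hne
          · intro u _ hne
            exact Finset.sum_eq_zero fun e' _ => by rw [if_neg (by tauto), zero_mul]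
          · intro hne; exact absurd (Finset.mem_univ _) hne
        · have e4 : ∀ u, ∑ e' ∈ Finset.range M, (∑ p ∈ Finset.HasAntidiagonal.antidiagonal e,
              if p.1 / D = e / D then S1 p.1 u e' * H w Φ r p.2 else 0) * B w Φ D u e' =
              ∑ p ∈ Finset.HasAntidiagonal.antidiagonal e, ∑ e' ∈ Finset.range M,
              (if p.1 / D = e / D then S1 p.1 u e' * H w Φ r p.2 else 0) * B w Φ D u e' := by
            intro u
            simp only [Finset.sum_mul]
            exact Finset.sum_comm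
          rw [Finset.sum_congr rfl fun u _ => e4 u, Finset.sum_comm]
          refine Finset.sum_congr rfl fun p hp => ?_
          split_ifs with hc1
          · obtain ⟨ha, hb, hc⟩ := hp1 p hp hc1
            obtain ⟨-, -, c1⟩ := hS1 p.1 ⟨ha, hb⟩
            rw [c1, Finset.sum_mul]
            refine Finset.sum_congr rfl fun u _ => ?_
            rw [Finset.sum_mul]
            refine Finset.sum_congr rfl fun e' _ => ?_
            ring
          · simp
      · have e4 : ∀ u, ∑ e' ∈ Finset.range M, (∑ p ∈ Finset.HasAntidiagonal.antidiagonal e,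
              if p.2 / D = e / D then S2 p.2 u e' * H w Φ l p.1 else 0) * B w Φ D u e' =
              ∑ p ∈ Finset.HasAntidiagonal.antidiagonal e, ∑ e' ∈ Finset.range M,
              (if p.2 / D = e / D then S2 p.2 u e' * H w Φ l p.1 else 0) * B w Φ D u e' := by
            intro u
            simp only [Finset.sum_mul]
            exact Finset.sum_comm
        rw [Finset.sum_congr rfl fun u _ => e4 u, Finset.sum_comm]
        refine Finset.sum_congr rfl fun p hp => ?_
        split_ifs with hc1
        · obtain ⟨ha, hb, hc⟩ := hp2 p hp hc1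
          obtain ⟨-, -, c1⟩ := hS2 p.2 ⟨ha, hb⟩
          rw [c1, Finset.mul_sum]
          refine Finset.sum_congr rfl fun u _ => ?_
          rw [Finset.mul_sum]
          refine Finset.sum_congr rfl fun e' _ => ?_
          ring
        · simp

end Pool.Agent.W463.CT
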