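import Mathlib
import Pool.Agent.W463.CT.Dec
import Pool.Agent.W463.CT.Perm
import Pool.Agent.W463.CT.Ell

set_option autoImplicit false

/-! # The main inequality -/

namespace Pool.Agent.W463.CT

open MvPolynomial Finset
open scoped NNReal
open Pool.Agent.H567.Nec Pool.Agent.H691R2.MM

universe u

variable {K : Type u} [Field K] (w : AbsoluteValue K ℝ) {n : ℕ} (Φ : Circuit K (Fin n × Fin n))

lemma G_zero (σ : Equiv.Perm (Fin n)) : G (0 : MvPolynomial (Fin n × Fin n) ℝ≥0) σ = 0 := by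
  simp [G]

/-- index set of the decomposition -/
noncomputable def J (D e : ℕ) : Finset (Fin Φ.N × ℕ × ℕ) :=
  (mulGates Φ) ×ˢ ((Finset.range (n + 1)).filter (fun e' => e' / D = e / D)) ×ˢ
    (Finset.range (n + 1))

omit [Field K] in
lemma card_J {D : ℕ} (hD : 2 ≤ D) (e : ℕ) :
    (J Φ D e).card ≤ (mulGates Φ).card * D * (n + 1) := by
  have h1 : ((Finset.range (n + 1)).filter (fun e' => e' / D = e / D)).card ≤ D := by
    have h2 : ((Finset.range (n + 1)).filter (fun e' => e' / D = e / D)) ⊆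
        Finset.Ico (D * (e / D)) (D * (e / D) + D) := by
      intro x hx
      rw [Finset.mem_filter] at hx
      rw [Finset.mem_Ico]
      have h3 := Nat.div_add_mod x D
      have h4 := Nat.mod_lt x (show 0 < D by omega)
      rw [hx.2] at h3
      omega
    refine (Finset.card_le_card h2).trans ?_
    simp
  unfold J
  rw [Finset.card_product, Finset.card_product, Finset.card_range, mul_assoc]
  gcongr

theorem decomp_J {D : ℕ} (hD : 2 ≤ D) (v : Fin Φ.N) {e : ℕ} (he : D ≤ e) (hen : e ≤ n) :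
    ∃ T : Fin Φ.N × ℕ × ℕ → MvPolynomial (Fin n × Fin n) ℝ≥0,
      H w Φ v e = ∑ t ∈ J Φ D e, T t ∧
      ∀ t, T t = 0 ∨ ∃ (s : MvPolynomial (Fin n × Fin n) ℝ≥0) (a b d : ℕ),
        s.IsHomogeneous d ∧ d < D ∧ d + a + b = e ∧ a / D < e / D ∧ b / D < e / D ∧
        a / D + b / D ≤ e / D ∧
        T t = s * (H w Φ (lft Φ t.1) a * H w Φ (rgt Φ t.1) b) := by
  classical
  obtain ⟨S, h1, h2, h3⟩ := decomp w Φ D (n + 1) hD v e he (by omega)
  have hD0 : 0 < D := by omega
  set T : Fin Φ.N × ℕ × ℕ → MvPolynomial (Fin n × Fin n) ℝ≥0 := fun t =>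
    if t.2.2 ≤ t.2.1 ∧ t.2.2 / D < t.2.1 / D ∧ (t.2.1 - t.2.2) / D < t.2.1 / D then
      S t.1 t.2.1 * (H w Φ (lft Φ t.1) t.2.2 * H w Φ (rgt Φ t.1) (t.2.1 - t.2.2)) else 0 with hT
  refine ⟨T, ?_, ?_⟩
  · rw [h3]
    unfold J
    rw [Finset.sum_product]
    -- restrict the sum over gates
    have e1 : ∀ u, u ∉ mulGates Φ → ∑ e' ∈ Finset.range (n + 1), S u e' * B w Φ D u e' = 0 := by
      intro u hu
      refine Finset.sum_eq_zero fun e' _ => ?_
      by_cases hz : S u e' = 0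
      · rw [hz, zero_mul]
      · exact absurd (h2 u e' hz).1 hu
    rw [← Finset.sum_subset (Finset.subset_univ (mulGates Φ)) fun u _ hu => e1 u hu]
    refine Finset.sum_congr rfl fun u _ => ?_
    rw [Finset.sum_product, Finset.sum_filter]
    refine Finset.sum_congr rfl fun e' he' => ?_
    rw [Finset.mem_range] at he'
    split_ifs with hc
    · rw [B, Finset.mul_sum, Finset.Nat.sum_antidiagonal_eq_sum_range_succ_mk]
      rw [← Finset.sum_subset (s₁ := Finset.range e'.succ) (s₂ := Finset.range (n + 1))]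
      · refine Finset.sum_congr rfl fun a ha => ?_
        rw [Finset.mem_range] at ha
        rw [hT]
        simp only
        by_cases hc2 : a / D < e' / D ∧ (e' - a) / D < e' / D
        · rw [if_pos hc2, if_pos ⟨by omega, hc2.1, hc2.2⟩]
        · rw [if_neg hc2, if_neg (by tauto), mul_zero]
      · intro x hx
        rw [Finset.mem_range] at hx ⊢
        omega
      · intro a _ ha
        rw [Finset.mem_range] at ha
        rw [hT]
        simp only
        rw [if_neg (by intro h; omega)]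
    · by_cases hz : S u e' = 0
      · rw [hz, zero_mul]
      · exact absurd (h2 u e' hz).2.2 hc
  · intro t
    by_cases hc : t.2.2 ≤ t.2.1 ∧ t.2.2 / D < t.2.1 / D ∧ (t.2.1 - t.2.2) / D < t.2.1 / D
    · by_cases hz : S t.1 t.2.1 = 0
      · left
        rw [hT]; simp only; rw [if_pos hc, hz, zero_mul]
      · right
        obtain ⟨h4, h5, h6⟩ := h2 t.1 t.2.1 hz
        refine ⟨S t.1 t.2.1, t.2.2, t.2.1 - t.2.2, e - t.2.1, h1 _ _, ?_, by omega, by omega,
          by omega, ?_, ?_⟩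
        · have h7 := Nat.div_add_mod e D
          have h8 := Nat.div_add_mod t.2.1 D
          have h9 := Nat.mod_lt e hD0
          rw [h6] at h8
          omega
        · rw [← h6]
          have : t.2.1 / D = (t.2.2 + (t.2.1 - t.2.2)) / D := by congr 1; omega
          rw [this]
          exact Nat.div_add_div_le_add_div
        · rw [hT]; simp only; rw [if_pos hc]
    · left
      rw [hT]; simp only; rw [if_neg hc]

/-- A polynomial of low degree. -/
lemma ell_light {D : ℕ} (hDn : D ≤ n) {d : ℕ} (hd : d < D)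
    (f : MvPolynomial (Fin n × Fin n) ℝ≥0) (hf : f.IsHomogeneous d) :
    ell 1 (G f) ≤ (1 / ((n - D + 1 : ℕ) : ℝ≥0)) ^ d * mass f := by
  rw [ell_one, Fintype.card_perm, Fintype.card_fin]
  have h1 := sum_G_le f hf
  have h2 : (n - d).factorial * (n - D + 1) ^ d ≤ n.factorial := by
    have h3 := Nat.factorial_mul_pow_sub_le_factorial (n := n - d) (m := n) (by omega)
    have h4 : n - (n - d) = d := by omega
    rw [h4] at h3
    refine le_trans ?_ h3
    exact Nat.mul_le_mul_left _ (Nat.pow_le_pow_left (by omega) d)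
  have h5 : ((n - d).factorial : ℝ≥0) * ((n - D + 1 : ℕ) : ℝ≥0) ^ d ≤ (n.factorial : ℝ≥0) := by
    exact_mod_cast h2
  have hpos : (0 : ℝ≥0) < (n.factorial : ℝ≥0) := by exact_mod_cast n.factorial_pos
  have hpos2 : (0 : ℝ≥0) < ((n - D + 1 : ℕ) : ℝ≥0) := by exact_mod_cast Nat.succ_pos _
  rw [div_le_iff₀ hpos]
  refine h1.trans ?_
  rw [one_div, inv_pow, mul_assoc, mul_comm (mass f), ← mul_assoc]
  refine mul_le_mul_of_nonneg_right ?_ zero_le
  rw [← div_eq_inv_mul, le_div_iff₀ (by positivity)]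
  exact h5

/-- the number of parts -/
def kap (q : ℕ) : ℕ := max 1 (4 * q - 1)

lemma kap_pos (q : ℕ) : 0 < kap q := by unfold kap; omega

lemma kap_add {q a b : ℕ} (ha : a < q) (hb : b < q) (hab : a + b ≤ q) :
    1 + (kap a + kap b) ≤ kap q := by
  unfold kap; omega

lemma expo {q a b : ℕ} (ha : a < q) (hb : b < q) (hab : a + b ≤ q) :
    (4 * a ^ 2 + 4 * b ^ 2) + (kap q - 1) ≤ 4 * q ^ 2 := by
  have h1 : kap q - 1 = 4 * q - 2 := by unfold kap; omega
  rw [h1]
  obtain ⟨a', rfl⟩ : ∃ a', q = a' + a := ⟨q - a, by omega⟩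
  have hb1 : b ≤ a' := by omega
  rcases Nat.eq_zero_or_pos a with h0 | h0
  · subst h0
    have : b + 1 ≤ a' := by omega
    have h2 : (b + 1) ^ 2 ≤ a' ^ 2 := Nat.pow_le_pow_left this 2
    have h3 : 1 ≤ a' := by omega
    zify [show 2 ≤ 4 * (a' + 0) by omega] at *
    nlinarith
  · have h4 : b ^ 2 ≤ a' ^ 2 := Nat.pow_le_pow_left hb1 2
    have h5 : 1 ≤ a' := by omega
    zify [show 2 ≤ 4 * (a' + a) by omega] at *
    nlinarith

/-- The main estimate. -/
theorem main_ell {D : ℕ} (hD : 2 ≤ D) (hDn : D ≤ n) (N₀ : ℕ) (hN0 : 1 ≤ N₀)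
    (hN : (mulGates Φ).card * D * (n + 1) ≤ N₀) (e : ℕ) : e ≤ n → ∀ v : Fin Φ.N,
    ell (kap (e / D)) (G (H w Φ v e)) ≤
      (N₀ : ℝ≥0) ^ (4 * (e / D) ^ 2) * (1 / ((n - D + 1 : ℕ) : ℝ≥0)) ^ e *
        mass (H w Φ v e) := by
  classical
  have hD0 : 0 < D := by omega
  set ρ : ℝ≥0 := 1 / ((n - D + 1 : ℕ) : ℝ≥0) with hρ
  have hN1 : (1 : ℝ≥0) ≤ (N₀ : ℝ≥0) := by exact_mod_cast hN0
  induction e using Nat.strong_induction_on with
  | _ e ih =>
  intro hen v
  by_cases hlt : e < D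
  · have h0 : e / D = 0 := Nat.div_eq_of_lt hlt
    rw [h0]
    have h1 : kap 0 = 1 := rfl
    rw [h1, show 4 * 0 ^ 2 = 0 from rfl, pow_zero, one_mul]
    exact ell_light hDn hlt (H w Φ v e) (H_isHom w Φ v e)
  · push Not at hlt
    obtain ⟨T, hT1, hT2⟩ := decomp_J w Φ hD v hlt hen
    set q := e / D with hq
    have hq1 : 1 ≤ q := (Nat.one_le_div_iff hD0).mpr hlt
    have hkap : kap q - 1 = 4 * q - 2 := by unfold kap; omega
    have hterm : ∀ t ∈ J Φ D e, (N₀ : ℝ≥0) ^ (kap q - 1) * ell (kap q) (G (T t)) ≤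
        (N₀ : ℝ≥0) ^ (4 * q ^ 2) * ρ ^ e * mass (T t) := by
      intro t _
      rcases hT2 t with h0 | ⟨s, a, b, d, hs, hdD, hsum, ha, hb, hab, hTt⟩
      · rw [h0, mass_zero, mul_zero]
        have : ell (kap q) (G (0 : MvPolynomial (Fin n × Fin n) ℝ≥0)) = 0 := by
          unfold ell
          have h5 : (1 / ((kap q : ℕ) : ℝ)) ≠ 0 := by
            have := kap_pos q
            positivity
          simp [G_zero, (kap_pos q).ne']
        rw [this, mul_zero]
      · have hle : ∀ σ, G (T t) σ ≤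
            G s σ * (G (H w Φ (lft Φ t.1) a) σ * G (H w Φ (rgt Φ t.1) b) σ) := by
          intro σ
          rw [hTt]
          exact (G_mul_le _ _ _).trans (mul_le_mul_of_nonneg_left (G_mul_le _ _ _) zero_le)
        have hDa : a < e := by
          by_contra hcon
          have : e / D ≤ a / D := Nat.div_le_div_right (by omega)
          omega
        have hDb : b < e := by
          by_contra hcon
          have : e / D ≤ b / D := Nat.div_le_div_right (by omega)
          omega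
        have i1 := ih a hDa (by omega) (lft Φ t.1)
        have i2 := ih b hDb (by omega) (rgt Φ t.1)
        have i3 := ell_light hDn hdD s hs
        have j1 : ell (kap q) (G (T t)) ≤ ell 1 (G s) *
            (ell (kap (a / D)) (G (H w Φ (lft Φ t.1) a)) *
              ell (kap (b / D)) (G (H w Φ (rgt Φ t.1) b))) := by
          refine (ell_mono _ hle).trans ?_
          refine (ell_anti (by have := kap_pos (a / D); omega) (kap_add ha hb hab) _).trans ?_
          refine (ell_mul one_pos (by have := kap_pos (a / D); omega) _ _).trans ?_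
          exact mul_le_mul_of_nonneg_left (ell_mul (kap_pos _) (kap_pos _) _ _) zero_le
        have j2 : ell (kap q) (G (T t)) ≤ (ρ ^ d * mass s) *
            (((N₀ : ℝ≥0) ^ (4 * (a / D) ^ 2) * ρ ^ a * mass (H w Φ (lft Φ t.1) a)) *
              ((N₀ : ℝ≥0) ^ (4 * (b / D) ^ 2) * ρ ^ b * mass (H w Φ (rgt Φ t.1) b))) :=
          j1.trans (mul_le_mul i3 (mul_le_mul i1 i2 zero_le zero_le) zero_le zero_le)
        refine (mul_le_mul_of_nonneg_left j2 zero_le).trans ?_
        rw [hTt, mass_mul, mass_mul]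
        have j3 : (N₀ : ℝ≥0) ^ (kap q - 1) * ((ρ ^ d * mass s) *
            (((N₀ : ℝ≥0) ^ (4 * (a / D) ^ 2) * ρ ^ a * mass (H w Φ (lft Φ t.1) a)) *
              ((N₀ : ℝ≥0) ^ (4 * (b / D) ^ 2) * ρ ^ b * mass (H w Φ (rgt Φ t.1) b)))) =
            (N₀ : ℝ≥0) ^ ((4 * (a / D) ^ 2 + 4 * (b / D) ^ 2) + (kap q - 1)) * ρ ^ e *
              (mass s * (mass (H w Φ (lft Φ t.1) a) * mass (H w Φ (rgt Φ t.1) b))) := by
          rw [← hsum, pow_add, pow_add, pow_add, pow_add]
          ring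
        rw [j3]
        gcongr
        exact expo ha hb hab
    have hcard : ((J Φ D e).card : ℝ≥0) ≤ (N₀ : ℝ≥0) := by
      exact_mod_cast (card_J Φ hD e).trans hN
    have hG : G (H w Φ v e) = fun σ => ∑ t ∈ J Φ D e, G (T t) σ := by
      funext σ
      rw [hT1, G_sum]
    rw [hG]
    refine (ell_sum (J Φ D e) (kap_pos q) (fun t => G (T t))).trans ?_
    refine (mul_le_mul_of_nonneg_right (pow_le_pow_left₀ zero_le hcard _) zero_le).trans ?_
    rw [Finset.mul_sum]
    refine (Finset.sum_le_sum hterm).trans (le_of_eq ?_)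
    rw [hT1, mass_sum, Finset.mul_sum]

/-- The explicit inequality with a parameter `D`. -/
theorem explicit {D : ℕ} (hD : 2 ≤ D) (hDn : D ≤ n) (o : Fin Φ.N)
    (P : Finset (Equiv.Perm (Fin n)))
    (hP : ∀ σ ∈ P, 1 ≤ w ((Φ.value o).coeff (mono σ))) :
    ((P.card : ℝ) / n.factorial) ^ (kap (n / D)) * ((n - D + 1 : ℕ) : ℝ) ^ n ≤
      ((((mulGates Φ).card + 1) * (n + 1) ^ 2 : ℕ) : ℝ) ^ (4 * (n / D) ^ 2) * cost w Φ o := by
  have hN : (mulGates Φ).card * D * (n + 1) ≤ ((mulGates Φ).card + 1) * (n + 1) ^ 2 := by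
    have : D ≤ n + 1 := by omega
    calc (mulGates Φ).card * D * (n + 1) ≤ ((mulGates Φ).card + 1) * (n + 1) * (n + 1) := by
          gcongr
          omega
      _ = _ := by ring
  have h1 := main_ell w Φ hD hDn (((mulGates Φ).card + 1) * (n + 1) ^ 2)
    (Nat.mul_pos (Nat.succ_pos _) (by positivity)) hN n le_rfl o
  have h2 : ∀ σ ∈ P, 1 ≤ G (H w Φ o n) σ := by
    intro σ hσ
    refine le_trans ?_ (coeff_le_G _ σ)
    rw [H, coeff_homogeneousComponent, if_pos (degree_mono σ)]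
    have h3 := (hP σ hσ).trans (coeff_value_le w Φ o (mono σ))
    exact_mod_cast h3
  have h4 := (ell_ge (kap_pos (n / D)) (G (H w Φ o n)) P h2).trans h1
  rw [Fintype.card_perm, Fintype.card_fin] at h4
  have h5 : mass (H w Φ o n) ≤ mass (absv w Φ o) := mass_hc_le n _
  have h6 := h4.trans (mul_le_mul_of_nonneg_left h5 zero_le)
  have h7 : (((P.card : ℝ≥0) / (n.factorial : ℝ≥0)) ^ (kap (n / D)) : ℝ≥0) *
      ((n - D + 1 : ℕ) : ℝ≥0) ^ n ≤
      ((((mulGates Φ).card + 1) * (n + 1) ^ 2 : ℕ) : ℝ≥0) ^ (4 * (n / D) ^ 2) *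
        mass (absv w Φ o) := by
    have hpos2 : (0 : ℝ≥0) < ((n - D + 1 : ℕ) : ℝ≥0) := by exact_mod_cast Nat.succ_pos _
    calc _ ≤ ((((mulGates Φ).card + 1) * (n + 1) ^ 2 : ℕ) : ℝ≥0) ^ (4 * (n / D) ^ 2) *
          (1 / ((n - D + 1 : ℕ) : ℝ≥0)) ^ n * mass (absv w Φ o) *
          ((n - D + 1 : ℕ) : ℝ≥0) ^ n := mul_le_mul_of_nonneg_right h6 zero_le
      _ = _ := by
        have : (1 / ((n - D + 1 : ℕ) : ℝ≥0)) ^ n * ((n - D + 1 : ℕ) : ℝ≥0) ^ n = 1 := by
          rw [← mul_pow, one_div, inv_mul_cancel₀ hpos2.ne', one_pow]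
        calc _ = ((((mulGates Φ).card + 1) * (n + 1) ^ 2 : ℕ) : ℝ≥0) ^ (4 * (n / D) ^ 2) *
              mass (absv w Φ o) * ((1 / ((n - D + 1 : ℕ) : ℝ≥0)) ^ n *
                ((n - D + 1 : ℕ) : ℝ≥0) ^ n) := by ring
          _ = _ := by rw [this, mul_one]
  rw [← NNReal.coe_le_coe] at h7
  rw [← mass_absv w Φ o]
  simp only [NNReal.coe_mul, NNReal.coe_pow, NNReal.coe_div, NNReal.coe_natCast] at h7
  exact h7

end Pool.Agent.W463.CT
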