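import Mathlib
import Pool.Agent.W463.CT.Main

set_option autoImplicit false

/-! # The threshold for the mass of circuits of size `2^(c n)` -/

namespace Pool.Agent.W463.CT

open MvPolynomial Finset Filter Topology
open Pool.Agent.H567.Nec Pool.Agent.H691R2.MM

universe u

lemma poly_le_exp (Q : ℕ) (s : ℝ) (hs : 1 < s) :
    ∃ n₀ : ℕ, ∀ n : ℕ, n₀ ≤ n → (2 * ((n : ℝ) + 1) ^ 2) ^ Q ≤ s ^ n := by
  have h1 : Tendsto (fun n : ℕ => ((n : ℝ)) ^ (2 * Q) * (s⁻¹) ^ n) atTop (𝓝 0) :=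
    tendsto_pow_const_mul_const_pow_of_abs_lt_one (2 * Q) (by
      rw [abs_of_pos (by positivity)]; exact inv_lt_one_of_one_lt₀ hs)
  have h2 : ∀ᶠ n : ℕ in atTop, ((n : ℝ)) ^ (2 * Q) * (s⁻¹) ^ n < (8 ^ Q : ℝ)⁻¹ :=
    h1.eventually_lt_const (by positivity)
  obtain ⟨n₀, hn₀⟩ := (h2.and (eventually_ge_atTop 1)).exists_forall_of_atTop
  refine ⟨n₀, fun n hn => ?_⟩
  obtain ⟨h3, h4⟩ := hn₀ n hn
  have hs0 : 0 < s := by linarith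
  have hn1 : (1 : ℝ) ≤ n := by exact_mod_cast h4
  rw [inv_pow, ← div_eq_mul_inv, div_lt_iff₀ (by positivity)] at h3
  have h5 : (2 * ((n : ℝ) + 1) ^ 2) ^ Q ≤ (8 * (n : ℝ) ^ 2) ^ Q := by
    apply pow_le_pow_left₀ (by positivity)
    nlinarith
  refine h5.trans ?_
  rw [mul_pow, ← pow_mul]
  calc (8 : ℝ) ^ Q * (n : ℝ) ^ (2 * Q) ≤ 8 ^ Q * ((8 ^ Q : ℝ)⁻¹ * s ^ n) := by
        gcongr
    _ = s ^ n := by rw [← mul_assoc, mul_inv_cancel₀ (by positivity), one_mul]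

lemma exp_choice (s : ℝ) (hs : 1 < s) (E n : ℕ) :
    ((2 : ℝ) ^ (Real.logb 2 s / (E + 1) * n)) ^ E ≤ s ^ n := by
  have hs0 : 0 < s := by linarith
  have hlog : 0 < Real.logb 2 s := Real.logb_pos (by norm_num) hs
  have h3 : ((2 : ℝ) ^ (Real.logb 2 s / (E + 1) * n)) ^ E =
      2 ^ (Real.logb 2 s / (E + 1) * E * n) := by
    rw [← Real.rpow_natCast, ← Real.rpow_mul (by norm_num)]
    congr 1; ring
  have h4 : s ^ n = 2 ^ (Real.logb 2 s * n) := by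
    rw [Real.rpow_mul (by norm_num), Real.rpow_logb (by norm_num) (by norm_num) hs0,
      Real.rpow_natCast]
  rw [h3, h4]
  apply Real.rpow_le_rpow_of_exponent_le (by norm_num)
  apply mul_le_mul_of_nonneg_right _ (Nat.cast_nonneg n)
  rw [div_mul_eq_mul_div, div_le_iff₀ (by positivity)]
  nlinarith

/-- The choice of the parameter `D`. -/
lemma choose_D (ε : ℝ) (hε0 : 0 < ε) (hε1 : ε < 1) (n : ℕ) (hn : 4 / ε ≤ n) :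
    ∃ D : ℕ, 2 ≤ D ∧ D ≤ n ∧ n / D ≤ ⌊2 / ε⌋₊ ∧ (1 - ε / 2) * n ≤ ((n - D + 1 : ℕ) : ℝ) := by
  have hnpos : (0 : ℝ) < n := by
    have : (4 : ℝ) / ε > 0 := by positivity
    linarith
  have hεn : 4 ≤ ε * n := by
    rw [div_le_iff₀ hε0] at hn
    linarith
  have hfl : ((⌊ε * n / 2⌋₊ : ℕ) : ℝ) ≤ ε * n / 2 := Nat.floor_le (by positivity)
  have hD1 : ε * n / 2 < ((⌊ε * n / 2⌋₊ + 1 : ℕ) : ℝ) := by
    push_cast; exact Nat.lt_floor_add_one _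
  have hDn : ⌊ε * n / 2⌋₊ + 1 ≤ n := by
    have h3 : ((⌊ε * n / 2⌋₊ + 1 : ℕ) : ℝ) ≤ n := by
      push_cast
      nlinarith
    exact_mod_cast h3
  refine ⟨⌊ε * n / 2⌋₊ + 1, ?_, hDn, ?_, ?_⟩
  · have h3 : (2 : ℝ) < ((⌊ε * n / 2⌋₊ + 1 : ℕ) : ℝ) := by linarith
    have : (2 : ℕ) < ⌊ε * n / 2⌋₊ + 1 := by exact_mod_cast h3
    omega
  · apply Nat.le_floor
    have h3 : ((n / (⌊ε * n / 2⌋₊ + 1) : ℕ) : ℝ) ≤ (n : ℝ) / ((⌊ε * n / 2⌋₊ + 1 : ℕ) : ℝ) :=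
      Nat.cast_div_le
    refine h3.trans ?_
    have hD0 : (0 : ℝ) < ((⌊ε * n / 2⌋₊ + 1 : ℕ) : ℝ) := by positivity
    rw [div_le_div_iff₀ hD0 hε0]
    nlinarith
  · have h4 : n - (⌊ε * n / 2⌋₊ + 1) + 1 + ⌊ε * n / 2⌋₊ = n := by omega
    have h5 : ((n - (⌊ε * n / 2⌋₊ + 1) + 1 + ⌊ε * n / 2⌋₊ : ℕ) : ℝ) = n := by rw [h4]
    rw [Nat.cast_add] at h5
    linarith

/-- The final assembly. -/
lemma assemble {q Q k k' n : ℕ} {X δ R s A ε M N : ℝ} (hX1 : 1 ≤ X) (hδ : X⁻¹ ≤ δ)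
    (hk : k ≤ 4 * q) (hA0 : 0 < A) (hN : (1 - ε / 2) * A ≤ N) (hε1 : ε < 1)
    (hε0 : 0 < ε) (hR1 : 1 ≤ R) (hM : 0 ≤ M) (hmain : δ ^ k * N ^ n ≤ (X * R) ^ k' * M)
    (hk' : k' ≤ Q) (hs : s * s = (1 - ε / 2) / (1 - ε)) (hs0 : 0 < s) (hRQ : R ^ Q ≤ s ^ n)
    (hXE : X ^ (Q + 4 * q) ≤ s ^ n) : ((1 - ε) * A) ^ n ≤ M := by
  have hX0 : 0 < X := by linarith
  have h1 : 0 < 1 - ε / 2 := by linarith
  have h2 : 0 < 1 - ε := by linarith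
  have hL : (X⁻¹) ^ (4 * q) * ((1 - ε / 2) * A) ^ n ≤ δ ^ k * N ^ n := by
    apply mul_le_mul
    · refine le_trans ?_ (pow_le_pow_left₀ (by positivity) hδ _)
      exact pow_le_pow_of_le_one (by positivity) (inv_le_one_of_one_le₀ hX1) hk
    · exact pow_le_pow_left₀ (by positivity) hN n
    · positivity
    · have : 0 < δ := lt_of_lt_of_le (by positivity) hδ
      positivity
  have hXR : 1 ≤ X * R := by nlinarith
  have hR' : (X * R) ^ k' * M ≤ X ^ Q * R ^ Q * M := by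
    rw [← mul_pow]
    exact mul_le_mul_of_nonneg_right (pow_le_pow_right₀ hXR hk') hM
  have h3 := hL.trans (hmain.trans hR')
  have h4 : ((1 - ε / 2) * A) ^ n ≤ X ^ (4 * q) * (X ^ Q * R ^ Q * M) := by
    have h5 : X ^ (4 * q) * ((X⁻¹) ^ (4 * q) * ((1 - ε / 2) * A) ^ n) =
        ((1 - ε / 2) * A) ^ n := by
      rw [← mul_assoc, ← mul_pow, mul_inv_cancel₀ hX0.ne', one_pow, one_mul]
    rw [← h5]
    exact mul_le_mul_of_nonneg_left h3 (by positivity)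
  have h6 : X ^ (4 * q) * (X ^ Q * R ^ Q * M) = X ^ (Q + 4 * q) * R ^ Q * M := by
    rw [pow_add]; ring
  rw [h6] at h4
  have hR0 : 0 < R := by linarith
  have h7 : ((1 - ε / 2) * A) ^ n ≤ s ^ n * s ^ n * M := by
    refine h4.trans ?_
    gcongr
  have hfin : ((1 - ε / 2) * A) ^ n = s ^ n * s ^ n * ((1 - ε) * A) ^ n := by
    rw [← mul_pow, hs, ← mul_pow]
    congr 1
    field_simp
  rw [hfin] at h7
  exact le_of_mul_le_mul_left h7 (by positivity)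

/-- **The threshold.** -/
theorem threshold (ε : ℝ) (hε0 : 0 < ε) (hε1 : ε < 1) : ∃ c : ℝ, 0 < c ∧ ∃ n₀ : ℕ, ∀ n : ℕ,
    n₀ ≤ n → ∀ (K : Type u) [Field K] (w : AbsoluteValue K ℝ) (Φ : Circuit K (Fin n × Fin n))
      (o : Fin Φ.N) (P : Finset (Equiv.Perm (Fin n))),
      ((mulGates Φ).card : ℝ) ≤ 2 ^ (c * n) → 2 ^ (-(c * n)) * (n.factorial : ℝ) ≤ P.card →
      (∀ σ ∈ P, 1 ≤ w ((Φ.value o).coeff (mono σ))) →
      ((1 - ε) * n) ^ n ≤ cost w Φ o := by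
  have h1ε : 0 < 1 - ε := by linarith
  have hg1 : 1 < (1 - ε / 2) / (1 - ε) := by rw [one_lt_div h1ε]; linarith
  obtain ⟨s, hs1, hss⟩ : ∃ s : ℝ, 1 < s ∧ s * s = (1 - ε / 2) / (1 - ε) :=
    ⟨Real.sqrt ((1 - ε / 2) / (1 - ε)), by rw [Real.lt_sqrt (by norm_num)]; linarith,
      Real.mul_self_sqrt (by linarith)⟩
  have hs0 : 0 < s := by linarith
  have hlog : 0 < Real.logb 2 s := Real.logb_pos (by norm_num) hs1
  obtain ⟨n₀, hn₀⟩ := poly_le_exp (4 * ⌊2 / ε⌋₊ ^ 2) s hs1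
  refine ⟨Real.logb 2 s / (((4 * ⌊2 / ε⌋₊ ^ 2 + 4 * ⌊2 / ε⌋₊ : ℕ) : ℝ) + 1), by positivity,
    max n₀ (⌈4 / ε⌉₊ + 4), ?_⟩
  intro n hn K _ w Φ o P hr hPc hP
  have hn1 : n₀ ≤ n := le_trans (le_max_left _ _) hn
  have hn2 : ⌈4 / ε⌉₊ + 4 ≤ n := le_trans (le_max_right _ _) hn
  have hn3 : 4 / ε ≤ n := by
    have : (4 / ε : ℝ) ≤ ⌈4 / ε⌉₊ := Nat.le_ceil _
    have h2 : ((⌈4 / ε⌉₊ : ℕ) : ℝ) + 4 ≤ n := by exact_mod_cast hn2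
    linarith
  obtain ⟨D, hD2, hDn, hq1, hbase⟩ := choose_D ε hε0 hε1 n hn3
  have hmain := explicit w Φ hD2 hDn o P hP
  have hXE := exp_choice s hs1 (4 * ⌊2 / ε⌋₊ ^ 2 + 4 * ⌊2 / ε⌋₊) n
  have hX1 : (1 : ℝ) ≤ 2 ^ (Real.logb 2 s /
      (((4 * ⌊2 / ε⌋₊ ^ 2 + 4 * ⌊2 / ε⌋₊ : ℕ) : ℝ) + 1) * n) :=
    Real.one_le_rpow (by norm_num) (by positivity)
  rw [Real.rpow_neg (by norm_num)] at hPc
  generalize (2 : ℝ) ^ (Real.logb 2 s /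
      (((4 * ⌊2 / ε⌋₊ ^ 2 + 4 * ⌊2 / ε⌋₊ : ℕ) : ℝ) + 1) * n) = X at hr hPc hXE hX1
  have hfac : (0 : ℝ) < n.factorial := by exact_mod_cast n.factorial_pos
  have hδ : X⁻¹ ≤ (P.card : ℝ) / n.factorial := by
    rw [le_div_iff₀ hfac]; exact hPc
  have hkap : kap (n / D) ≤ 4 * ⌊2 / ε⌋₊ := by
    have h3 : 1 ≤ n / D := (Nat.one_le_div_iff (by omega)).mpr hDn
    unfold kap
    omega
  have hnpos : (0 : ℝ) < n := by
    have : (4 : ℝ) / ε > 0 := by positivity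
    linarith
  have hbase2 : ((((mulGates Φ).card + 1) * (n + 1) ^ 2 : ℕ) : ℝ) ≤
      X * (2 * ((n : ℝ) + 1) ^ 2) := by
    push_cast
    have h3 : ((mulGates Φ).card : ℝ) + 1 ≤ 2 * X := by linarith
    calc ((#(mulGates Φ) : ℝ) + 1) * ((n : ℝ) + 1) ^ 2 ≤ (2 * X) * ((n : ℝ) + 1) ^ 2 :=
          mul_le_mul_of_nonneg_right h3 (sq_nonneg _)
      _ = _ := by ring
  have hR1 : (1 : ℝ) ≤ 2 * ((n : ℝ) + 1) ^ 2 := by nlinarith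
  have hmain2 : ((P.card : ℝ) / n.factorial) ^ (kap (n / D)) * ((n - D + 1 : ℕ) : ℝ) ^ n ≤
      (X * (2 * ((n : ℝ) + 1) ^ 2)) ^ (4 * (n / D) ^ 2) * cost w Φ o :=
    hmain.trans (mul_le_mul_of_nonneg_right
      (pow_le_pow_left₀ (Nat.cast_nonneg _) hbase2 (4 * (n / D) ^ 2)) (cost_nonneg w Φ o))
  exact assemble hX1 hδ hkap hnpos hbase hε1 hε0 hR1 (cost_nonneg w Φ o) hmain2
    (Nat.mul_le_mul_left 4 (Nat.pow_le_pow_left hq1 2)) hss hs0 (hn₀ n hn1) hXE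

end Pool.Agent.W463.CT
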