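import Mathlib
import Pool.Agent.H691R2.MM.Coef

set_option autoImplicit false

/-! # Building circuits with a given mass

A variant of the programs of `Pool.Agent.H691R2.Skew.MonC` with arbitrary constants. -/

namespace Pool.Agent.W463.CT.Build

open Finset
open scoped NNReal
open Pool.Agent.H567.Nec Pool.Agent.H691R2.MM

universe u v

variable {K : Type u} [NormedField K] {σ : Type v}

/-- Pairs: a polynomial and its mass. -/
abbrev Pr (K : Type u) [NormedField K] (σ : Type v) := MvPolynomial σ K × ℝ≥0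

/-- A variable, with mass `1`. -/
noncomputable def xx (v : σ) : Pr K σ := (MvPolynomial.X v, 1)

/-- A constant, with its norm. -/
noncomputable def cc (c : K) : Pr K σ := (MvPolynomial.C c, ‖c‖₊)

/-- The new value `x` is obtained in one step from values in `F`. -/
def OneStep (F : Set (Pr K σ)) (x : Pr K σ) : Prop :=
  (∃ v, x = xx v) ∨ (∃ c, x = cc c) ∨ (∃ a ∈ F, ∃ b ∈ F, x = a + b) ∨ ∃ a ∈ F, ∃ b ∈ F, x = a * b

/-- A straight-line program of length `n`. -/
def Valid (f : ℕ → Pr K σ) (n : ℕ) : Prop :=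
  ∀ i < n, OneStep {x | ∃ l < i, f l = x} (f i)

/-- All elements of `F` are computed by a program of length at most `e`. -/
def Rch (e : ℕ) (F : Set (Pr K σ)) : Prop :=
  ∃ n ≤ e, ∃ f, Valid f n ∧ ∀ x ∈ F, ∃ i < n, f i = x

theorem OneStep.mono {F F' : Set (Pr K σ)} {x : Pr K σ}
    (h : OneStep F x) (hF : F ⊆ F') : OneStep F' x := by
  rcases h with h | h | ⟨a, ha, b, hb, h⟩ | ⟨a, ha, b, hb, h⟩
  · exact Or.inl h
  · exact Or.inr (Or.inl h)
  · exact Or.inr (Or.inr (Or.inl ⟨a, hF ha, b, hF hb, h⟩))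
  · exact Or.inr (Or.inr (Or.inr ⟨a, hF ha, b, hF hb, h⟩))

theorem rch_mono {e e' : ℕ} {F F' : Set (Pr K σ)} (h : Rch e F) (he : e ≤ e')
    (hF : F' ⊆ F) : Rch e' F' := by
  obtain ⟨n, hn, f, hf, hx⟩ := h
  exact ⟨n, hn.trans he, f, hf, fun x hx' => hx x (hF hx')⟩

theorem rch_empty : Rch 0 (∅ : Set (Pr K σ)) :=
  ⟨0, le_rfl, fun _ => 0, fun i hi => absurd hi (by omega), fun x hx => absurd hx (by simp)⟩

theorem rch_insert {e : ℕ} {F : Set (Pr K σ)} {x : Pr K σ}
    (h : Rch e F) (hx : OneStep F x) : Rch (e + 1) (insert x F) := by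
  obtain ⟨n, hn, f, hf, hF⟩ := h
  have hold : ∀ i < n, Function.update f n x i = f i := fun i hi =>
    Function.update_of_ne (by omega) _ _
  refine ⟨n + 1, by omega, Function.update f n x, ?_, ?_⟩
  · intro i hi
    rcases Nat.lt_succ_iff_lt_or_eq.1 hi with hi | rfl
    · rw [hold i hi]
      refine (hf i hi).mono ?_
      rintro y ⟨l, hl, rfl⟩
      exact ⟨l, hl, hold l (by omega)⟩
    · rw [Function.update_self]
      refine hx.mono ?_
      intro y hy
      obtain ⟨l, hl, hly⟩ := hF y hy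
      exact ⟨l, hl, by rw [hold l hl, hly]⟩
  · intro y hy
    rcases Set.mem_insert_iff.1 hy with rfl | hy
    · exact ⟨n, by omega, Function.update_self _ _ _⟩
    · obtain ⟨l, hl, hly⟩ := hF y hy
      exact ⟨l, by omega, by rw [hold l hl, hly]⟩

/-- `y` is obtained from `F` with `c` further steps. -/
def Obt (F : Set (Pr K σ)) (c : ℕ) (y : Pr K σ) : Prop :=
  ∀ e F', F ⊆ F' → Rch e F' → Rch (e + c) (insert y F')

variable {F : Set (Pr K σ)}

theorem Obt.mono {F₁ : Set (Pr K σ)} {c c' : ℕ} {y : Pr K σ}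
    (h : Obt F c y) (hF : F ⊆ F₁) (hc : c ≤ c') : Obt F₁ c' y := by
  intro e F' hF' hr
  exact rch_mono (h e F' (hF.trans hF') hr) (by omega) le_rfl

theorem obt_mem {y : Pr K σ} (h : y ∈ F) : Obt F 0 y := by
  intro e F' hF' hr
  rw [Set.insert_eq_of_mem (hF' h)]
  exact hr

theorem obt_xx (v : σ) : Obt F 1 (xx v : Pr K σ) :=
  fun _ _ _ hr => rch_insert hr (Or.inl ⟨v, rfl⟩)

theorem obt_cc (c : K) : Obt F 1 (cc c : Pr K σ) :=
  fun _ _ _ hr => rch_insert hr (Or.inr (Or.inl ⟨c, rfl⟩))

theorem cc_zero : (cc 0 : Pr K σ) = 0 := by simp [cc]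

theorem cc_one : (cc 1 : Pr K σ) = 1 := by simp [cc]

theorem obt_zero : Obt F 1 0 := by
  have h := obt_cc (F := F) (0 : K)
  rwa [cc_zero] at h

theorem obt_one : Obt F 1 1 := by
  have h := obt_cc (F := F) (1 : K)
  rwa [cc_one] at h

theorem obt_add {c c' : ℕ} {y y' : Pr K σ} (h : Obt F c y) (h' : Obt F c' y') :
    Obt F (c + c' + 1) (y + y') := by
  intro e F' hF' hr
  have h1 := h e F' hF' hr
  have h2 := h' _ _ (hF'.trans (Set.subset_insert _ _)) h1
  have h3 := rch_insert h2 (x := y + y') (Or.inr (Or.inr (Or.inl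
    ⟨y, Or.inr (Or.inl rfl), y', Or.inl rfl, rfl⟩)))
  refine rch_mono h3 (by omega) ?_
  apply Set.insert_subset_insert
  exact (Set.subset_insert _ _).trans (Set.subset_insert _ _)

theorem obt_mul {c c' : ℕ} {y y' : Pr K σ} (h : Obt F c y) (h' : Obt F c' y') :
    Obt F (c + c' + 1) (y * y') := by
  intro e F' hF' hr
  have h1 := h e F' hF' hr
  have h2 := h' _ _ (hF'.trans (Set.subset_insert _ _)) h1
  have h3 := rch_insert h2 (x := y * y') (Or.inr (Or.inr (Or.inr
    ⟨y, Or.inr (Or.inl rfl), y', Or.inl rfl, rfl⟩)))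
  refine rch_mono h3 (by omega) ?_
  apply Set.insert_subset_insert
  exact (Set.subset_insert _ _).trans (Set.subset_insert _ _)

theorem obt_sum {ι : Type*} (s : Finset ι) (y : ι → Pr K σ) (c : ℕ)
    (h : ∀ i ∈ s, Obt F c (y i)) : Obt F (s.card * (c + 1) + 1) (∑ i ∈ s, y i) := by
  classical
  induction s using Finset.induction_on with
  | empty => exact (obt_zero (F := F)).mono le_rfl (by simp)
  | insert a s ha ih =>
    rw [Finset.sum_insert ha, Finset.card_insert_of_notMem ha]
    exact (obt_add (h a (Finset.mem_insert_self _ _))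
      (ih fun i hi => h i (Finset.mem_insert_of_mem hi))).mono le_rfl (by
        rw [add_mul]; omega)

theorem rch_batch {ι : Type*} (s : Finset ι) (y : ι → Pr K σ) (c : ℕ)
    (h : ∀ i ∈ s, Obt F c (y i)) (e : ℕ) (F' : Set (Pr K σ)) (hF : F ⊆ F')
    (hr : Rch e F') : Rch (e + s.card * c) (F' ∪ y '' s) := by
  classical
  induction s using Finset.induction_on with
  | empty => simpa using hr
  | insert a s ha ih =>
    have h1 := ih fun i hi => h i (Finset.mem_insert_of_mem hi)
    have h2 := h a (Finset.mem_insert_self _ _) _ _ (hF.trans Set.subset_union_left) h1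
    refine rch_mono h2 (by rw [Finset.card_insert_of_notMem ha, add_mul]; omega) ?_
    rw [Finset.coe_insert, Set.image_insert_eq, Set.union_insert]

/-! ### Circuits from programs -/

/-- Evaluate a node. -/
noncomputable def evalNode {n : ℕ} (f : ℕ → Pr K σ) : Node K σ n → Pr K σ
  | .var v => xx v
  | .const c => cc c
  | .add l r => f l + f r
  | .mul l r => f l * f r

theorem exists_circuit (w : AbsoluteValue K ℝ) (hw : ∀ c, w c = ‖c‖) {f : ℕ → Pr K σ} {n : ℕ}
    (hf : Valid f n) :
    ∃ (Φ : Circuit K σ), Φ.N = n ∧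
      (∀ i : Fin Φ.N, Φ.value i = (f i).1 ∧ cost w Φ i = ((f i).2 : ℝ)) := by
  have hnode : ∀ i : Fin n, ∃ nd : Node K σ n, (∀ (p : Bool) (j : Fin n),
      nd.arg p = some j → j < i) ∧ evalNode f nd = f i := by
    intro i
    rcases hf i i.2 with ⟨v, h⟩ | ⟨c, h⟩ | ⟨a, ⟨l, hl, ha⟩, b, ⟨r, hr, hb⟩, h⟩ |
      ⟨a, ⟨l, hl, ha⟩, b, ⟨r, hr, hb⟩, h⟩
    · refine ⟨.var v, ?_, ?_⟩
      · intro p j hj; cases p <;> simp [Node.arg] at hj
      · rw [h]; rfl
    · refine ⟨.const c, ?_, ?_⟩
      · intro p j hj; cases p <;> simp [Node.arg] at hj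
      · rw [h]; rfl
    · refine ⟨.add ⟨l, by omega⟩ ⟨r, by omega⟩, ?_, ?_⟩
      · intro p j hj
        cases p <;> simp only [Node.arg, Option.some.injEq] at hj <;> subst hj
        · exact hl
        · exact hr
      · rw [h, ← ha, ← hb]; rfl
    · refine ⟨.mul ⟨l, by omega⟩ ⟨r, by omega⟩, ?_, ?_⟩
      · intro p j hj
        cases p <;> simp only [Node.arg, Option.some.injEq] at hj <;> subst hj
        · exact hl
        · exact hr
      · rw [h, ← ha, ← hb]; rfl
  choose node h1 h3 using hnode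
  let Φ : Circuit K σ := ⟨n, node, fun i j p h => h1 i p j h⟩
  refine ⟨Φ, rfl, ?_⟩
  have key : ∀ k : ℕ, ∀ hk : k < n, Φ.value ⟨k, hk⟩ = (f k).1 ∧
      cost w Φ ⟨k, hk⟩ = ((f k).2 : ℝ) := by
    intro k
    induction k using Nat.strong_induction_on with
    | _ k ih =>
      intro hk
      have hev := h3 ⟨k, hk⟩
      have hargs := h1 ⟨k, hk⟩
      cases hnd : node ⟨k, hk⟩ with
      | var v =>
        have hn : Φ.node ⟨k, hk⟩ = Node.var v := hnd
        rw [value_var Φ hn, cost_var w Φ hn]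
        rw [hnd] at hev
        rw [← hev]
        simp [evalNode, xx]
      | const c =>
        have hn : Φ.node ⟨k, hk⟩ = Node.const c := hnd
        rw [value_const Φ hn, cost_const w Φ hn]
        rw [hnd] at hev
        rw [← hev]
        simp [evalNode, cc, hw]
      | add l r =>
        have hn : Φ.node ⟨k, hk⟩ = Node.add l r := hnd
        rw [value_add Φ hn, cost_add w Φ hn]
        rw [hnd] at hev hargs
        have hl : (l : ℕ) < k := hargs false l rfl
        have hr : (r : ℕ) < k := hargs true r rfl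
        have e1 := ih l hl l.2
        have e2 := ih r hr r.2
        rw [← hev]
        simp only [evalNode]
        refine ⟨?_, ?_⟩
        · rw [Prod.fst_add, ← e1.1, ← e2.1]
        · rw [Prod.snd_add, NNReal.coe_add, ← e1.2, ← e2.2]
      | mul l r =>
        have hn : Φ.node ⟨k, hk⟩ = Node.mul l r := hnd
        rw [value_mul Φ hn, cost_mul w Φ hn]
        rw [hnd] at hev hargs
        have hl : (l : ℕ) < k := hargs false l rfl
        have hr : (r : ℕ) < k := hargs true r rfl
        have e1 := ih l hl l.2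
        have e2 := ih r hr r.2
        rw [← hev]
        simp only [evalNode]
        refine ⟨?_, ?_⟩
        · rw [Prod.fst_mul, ← e1.1, ← e2.1]
        · rw [Prod.snd_mul, NNReal.coe_mul, ← e1.2, ← e2.2]
  intro i
  exact key i i.2

end Pool.Agent.W463.CT.Build
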