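import Mathlib
import Pool.Agent.H558R2.FL

set_option autoImplicit false

/-!
# The Faddeev–LeVerrier algorithm over commutative rings
-/

namespace Pool.Agent.W463.CT.FL

open Matrix Polynomial

variable {R : Type*} [CommRing R] {m : ℕ}

/-- The matrices of the Faddeev–LeVerrier algorithm; `g k` is minus the inverse of `k + 1`. -/
noncomputable def flN {S : Type*} [CommSemiring S] (g : ℕ → S) (A : Matrix (Fin m) (Fin m) S) :
    ℕ → Matrix (Fin m) (Fin m) S
  | 0 => 1
  | k + 1 => A * flN g A k + (g k * trace (A * flN g A k)) • 1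

/-- The coefficients of the adjugate of the characteristic matrix. -/
noncomputable def adjc (A : Matrix (Fin m) (Fin m) R) (k : ℕ) : Matrix (Fin m) (Fin m) R :=
  (matPolyEquiv (adjugate (charmatrix A))).coeff k

lemma adjc_mul (A : Matrix (Fin m) (Fin m) R) :
    (X - C A) * matPolyEquiv (adjugate (charmatrix A)) =
      A.charpoly.map (algebraMap R (Matrix (Fin m) (Fin m) R)) := by
  have h : A.charpoly • (1 : Matrix (Fin m) (Fin m) R[X]) =
      charmatrix A * adjugate (charmatrix A) := (mul_adjugate _).symm
  have h2 := congrArg matPolyEquiv h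
  rw [map_mul, matPolyEquiv_charmatrix, matPolyEquiv_smul_one] at h2
  exact h2.symm

lemma algMap_eq (c : R) : algebraMap R (Matrix (Fin m) (Fin m) R) c = c • 1 :=
  Algebra.algebraMap_eq_smul_one c

lemma adjc_rec (A : Matrix (Fin m) (Fin m) R) (k : ℕ) :
    adjc A k = A * adjc A (k + 1) + A.charpoly.coeff (k + 1) • 1 := by
  have h := congrArg (fun p => coeff p (k + 1)) (adjc_mul A)
  simp only [coeff_map, sub_mul, coeff_sub, coeff_X_mul, coeff_C_mul, algMap_eq] at h
  unfold adjc
  rw [← h]
  abel

lemma adjc_zero_rec (A : Matrix (Fin m) (Fin m) R) :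
    0 = A * adjc A 0 + A.charpoly.coeff 0 • 1 := by
  have h := congrArg (fun p => coeff p 0) (adjc_mul A)
  simp only [coeff_map, sub_mul, coeff_sub, coeff_C_mul, algMap_eq, coeff_X_mul_zero,
    zero_sub] at h
  unfold adjc
  rw [← h]
  abel

lemma trace_adjc (A : Matrix (Fin m) (Fin m) R) (k : ℕ) :
    trace (adjc A k) = ((k : R) + 1) * A.charpoly.coeff (k + 1) := by
  have h := congrArg (fun p => coeff p k) (Pool.Agent.H558R2.derivative_charpoly A)
  simp only [coeff_derivative, trace, diag_apply, finsetSum_coeff] at h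
  unfold trace adjc
  simp only [diag_apply, matPolyEquiv_coeff_apply]
  rw [← h]
  ring

variable [Nontrivial R]

lemma adjc_eq_zero (A : Matrix (Fin m) (Fin m) R) (k : ℕ) (hk : m ≤ k) : adjc A k = 0 := by
  -- downward induction from the degree
  set N := (matPolyEquiv (adjugate (charmatrix A))).natDegree + 1 with hN
  have key : ∀ j, ∀ k, m ≤ k → N ≤ k + j → adjc A k = 0 := by
    intro j
    induction j with
    | zero =>
      intro k _ h
      exact coeff_eq_zero_of_natDegree_lt (by omega)
    | succ j ih =>
      intro k hk h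
      rw [adjc_rec, ih (k + 1) (by omega) (by omega)]
      have : A.charpoly.coeff (k + 1) = 0 := by
        apply coeff_eq_zero_of_natDegree_lt
        rw [charpoly_natDegree_eq_dim, Fintype.card_fin]
        omega
      rw [this]
      simp
  exact key N k hk (by omega)

lemma flN_eq (g : ℕ → R) (hg : ∀ k : ℕ, ((k : R) + 1) * g k = -1) (A : Matrix (Fin m) (Fin m) R)
    (k : ℕ) (hk : k < m) : flN g A k = adjc A (m - 1 - k) := by
  induction k with
  | zero =>
    rw [adjc_rec, adjc_eq_zero A _ (by omega)]
    have : A.charpoly.coeff (m - 1 - 0 + 1) = 1 := by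
      have h1 : m - 1 - 0 + 1 = m := by omega
      rw [h1]
      have h2 := A.charpoly_monic
      rw [Monic, leadingCoeff, charpoly_natDegree_eq_dim, Fintype.card_fin] at h2
      exact h2
    rw [this, flN]
    simp
  | succ k ih =>
    have ih' := ih (by omega)
    have e1 : m - 1 - (k + 1) + 1 = m - 1 - k := by omega
    have h1 := adjc_rec A (m - 1 - (k + 1))
    rw [e1, ← ih'] at h1
    have h2 := trace_adjc A (m - 1 - (k + 1))
    rw [e1] at h2
    have h3 : trace (adjc A (m - 1 - (k + 1))) =
        trace (A * flN g A k) + A.charpoly.coeff (m - 1 - k) * m := by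
      rw [h1, trace_add, trace_smul, trace_one, Fintype.card_fin, smul_eq_mul]
    have h4 : ((m - 1 - (k + 1) : ℕ) : R) + 1 = (m : R) - ((k : R) + 1) := by
      have h5 : (((m - 1 - (k + 1)) + 1 + (k + 1) : ℕ) : R) = m := by
        have : (m - 1 - (k + 1)) + 1 + (k + 1) = m := by omega
        rw [this]
      push_cast at h5
      rw [← h5]
      ring
    rw [h4, h3] at h2
    have h5 : A.charpoly.coeff (m - 1 - k) = g k * trace (A * flN g A k) := by
      have h6 : trace (A * flN g A k) = -(((k : R) + 1) * A.charpoly.coeff (m - 1 - k)) := by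
        linear_combination h2
      rw [h6]
      have := hg k
      linear_combination (A.charpoly.coeff (m - 1 - k)) * this
    rw [flN, h1, h5]

/-- The determinant from the Faddeev–LeVerrier recursion. -/
theorem det_eq_flN (g : ℕ → R) (hg : ∀ k : ℕ, ((k : R) + 1) * g k = -1)
    (A : Matrix (Fin m) (Fin m) R) (hm : 1 ≤ m) :
    (-1) ^ m * g (m - 1) * trace (A * flN g A (m - 1)) = A.det := by
  have h1 := adjc_zero_rec A
  have h2 := flN_eq g hg A (m - 1) (by omega)
  rw [show m - 1 - (m - 1) = 0 by omega] at h2
  rw [← h2] at h1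
  have h3 := congrArg trace h1
  rw [trace_zero, trace_add, trace_smul, trace_one, Fintype.card_fin, smul_eq_mul] at h3
  have h4 := det_eq_sign_charpoly_coeff A
  rw [Fintype.card_fin] at h4
  have h5 := hg (m - 1)
  have h6 : ((m - 1 : ℕ) : R) + 1 = (m : R) := by
    have : ((m - 1 + 1 : ℕ) : R) = m := by
      have : m - 1 + 1 = m := by omega
      rw [this]
    push_cast at this
    exact this
  rw [h6] at h5
  rw [h4]
  have h7 : trace (A * flN g A (m - 1)) = -(A.charpoly.coeff 0 * m) := by
    linear_combination -h3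
  rw [h7]
  linear_combination (-(-1) ^ m * A.charpoly.coeff 0) * h5

end Pool.Agent.W463.CT.FL
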