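import Mathlib
import Pool.Agent.W463.CT.Build
import Pool.Agent.W463.CT.FL

set_option autoImplicit false

/-! # The determinant has circuits with `O(n ^ 4)` nodes and mass `n ^ n` -/

namespace Pool.Agent.W463.CT.DetUp

open Finset Matrix
open scoped NNReal
open Pool.Agent.H567.Nec Pool.Agent.H691R2.MM
open Pool.Agent.W463.CT.Build Pool.Agent.W463.CT.FL

variable {n : ℕ}

lemma flN_map {S S' : Type*} [CommSemiring S] [CommSemiring S'] (φ : S →+* S') (g : ℕ → S)
    (A : Matrix (Fin n) (Fin n) S) (k : ℕ) :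
    (flN g A k).map φ = flN (fun k => φ (g k)) (A.map φ) k := by
  induction k with
  | zero =>
    simp only [flN]
    ext i j
    simp [Matrix.one_apply, apply_ite φ]
  | succ k ih =>
    simp only [flN]
    rw [← ih]
    ext i j
    simp only [map_apply, Matrix.add_apply, Matrix.smul_apply, smul_eq_mul, map_add, map_mul,
      mul_apply, map_sum, trace, diag_apply, one_apply, apply_ite φ, map_one, map_zero]

/-- The matrix of ones. -/
def J (n : ℕ) : Matrix (Fin n) (Fin n) ℝ≥0 := fun _ _ => 1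

lemma J_mul_J : J n * J n = (n : ℝ≥0) • J n := by
  ext i j
  simp [J, mul_apply]

lemma trace_J : trace (J n) = (n : ℝ≥0) := by
  simp [J, trace]

lemma J_mul_flN (k : ℕ) :
    J n * flN (fun k => ((k : ℝ≥0) + 1)⁻¹) (J n) k = (((k : ℝ≥0) + 1) * (n : ℝ≥0) ^ k) • J n := by
  induction k with
  | zero => simp [flN]
  | succ k ih =>
    rw [flN, ih, trace_smul, trace_J, mul_add, Matrix.mul_smul, J_mul_J, Matrix.mul_smul,
      Matrix.mul_one, smul_smul, ← add_smul, smul_eq_mul]
    congr 1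
    have : ((k : ℝ≥0) + 1) ≠ 0 := by positivity
    push_cast
    field_simp
    ring

/-- The generic matrix, with masses. -/
noncomputable def A (n : ℕ) : Matrix (Fin n) (Fin n) (Pr ℂ (Fin n × Fin n)) :=
  fun i j => xx (i, j)

/-- The constants. -/
noncomputable def g (n : ℕ) (k : ℕ) : Pr ℂ (Fin n × Fin n) := cc (-((k : ℂ) + 1)⁻¹)

/-- The set of entries of a matrix. -/
def ent (M : Matrix (Fin n) (Fin n) (Pr ℂ (Fin n × Fin n))) : Set (Pr ℂ (Fin n × Fin n)) :=
  (fun p : Fin n × Fin n => M p.1 p.2) '' ((univ : Finset (Fin n × Fin n)) : Set (Fin n × Fin n))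

lemma mem_ent (M : Matrix (Fin n) (Fin n) (Pr ℂ (Fin n × Fin n))) (i j : Fin n) :
    M i j ∈ ent M := ⟨(i, j), by simp, rfl⟩

lemma obt_A_mul (M : Matrix (Fin n) (Fin n) (Pr ℂ (Fin n × Fin n))) (i j : Fin n) :
    Obt (ent M) (n * 3 + 1) ((A n * M) i j) := by
  rw [mul_apply]
  have h := obt_sum (F := ent M) (univ : Finset (Fin n)) (fun l => A n i l * M l j) 2
    (fun l _ => obt_mul (obt_xx (i, l)) (obt_mem (mem_ent M l j)))
  simpa using h

lemma obt_trace (M : Matrix (Fin n) (Fin n) (Pr ℂ (Fin n × Fin n))) (F) (c : ℕ)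
    (h : ∀ i, Obt F c (M i i)) : Obt F (n * (c + 1) + 1) (trace M) := by
  rw [trace]
  have h := obt_sum (F := F) (univ : Finset (Fin n)) (fun l => M l l) c (fun l _ => h l)
  simpa using h

lemma step (M : Matrix (Fin n) (Fin n) (Pr ℂ (Fin n × Fin n))) (γ : ℂ) (e : ℕ)
    (h : Rch e (ent M)) :
    Rch (e + (n * n * (n * 3 + 1) + (n + 3) + n * n * 2))
      (ent (A n * M + (cc γ * trace (A n * M)) • 1)) := by
  classical
  have h1 := rch_batch (F := ent M) (univ : Finset (Fin n × Fin n))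
    (fun p => (A n * M) p.1 p.2) (n * 3 + 1) (fun p _ => obt_A_mul M p.1 p.2) e (ent M) le_rfl h
  change Rch _ (ent M ∪ ent (A n * M)) at h1
  have h2 : Obt (ent (A n * M)) (1 + (n * (0 + 1) + 1) + 1) (cc γ * trace (A n * M)) :=
    obt_mul (obt_cc γ) (obt_trace _ _ 0 (fun i => obt_mem (mem_ent _ i i)))
  have h3 := h2 _ _ Set.subset_union_right h1
  have h4 := rch_batch (F := insert (cc γ * trace (A n * M)) (ent M ∪ ent (A n * M)))
    (univ : Finset (Fin n × Fin n))
    (fun p => (A n * M + (cc γ * trace (A n * M)) •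
      (1 : Matrix (Fin n) (Fin n) (Pr ℂ (Fin n × Fin n)))) p.1 p.2) 2 (fun p _ => by
      rw [Matrix.add_apply, Matrix.smul_apply, one_apply, smul_eq_mul]
      have ha : Obt (insert (cc γ * trace (A n * M)) (ent M ∪ ent (A n * M))) 0
          ((A n * M) p.1 p.2) :=
        obt_mem (Or.inr (Or.inr (mem_ent _ _ _)))
      by_cases hp : p.1 = p.2
      · rw [if_pos hp, mul_one]
        exact (obt_add ha (obt_mem (Or.inl rfl))).mono le_rfl (by omega)
      · rw [if_neg hp, mul_zero]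
        exact (obt_add ha obt_zero).mono le_rfl (by omega)) _ _ le_rfl h3
  refine rch_mono h4 ?_ Set.subset_union_right
  simp only [card_univ, Fintype.card_prod, Fintype.card_fin]
  omega

lemma rch_flN (k : ℕ) :
    Rch (n * n + k * (n * n * (n * 3 + 1) + (n + 3) + n * n * 2)) (ent (flN (g n) (A n) k)) := by
  classical
  induction k with
  | zero =>
    have h := rch_batch (F := (∅ : Set (Pr ℂ (Fin n × Fin n)))) (univ : Finset (Fin n × Fin n))
      (fun p => (1 : Matrix (Fin n) (Fin n) (Pr ℂ (Fin n × Fin n))) p.1 p.2) 1 (fun p _ => by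
        rw [one_apply]
        by_cases hp : p.1 = p.2
        · rw [if_pos hp]; exact obt_one
        · rw [if_neg hp]; exact obt_zero) 0 ∅ le_rfl rch_empty
    refine rch_mono h ?_ Set.subset_union_right
    simp only [card_univ, Fintype.card_prod, Fintype.card_fin]
    omega
  | succ k ih =>
    have h := step _ (-((k : ℂ) + 1)⁻¹) _ ih
    refine rch_mono h ?_ le_rfl
    rw [add_mul, one_mul]
    omega

/-- The generic determinant has circuits with `O(n ^ 4)` nodes and mass `n ^ n`. -/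
theorem det_circuit (w : AbsoluteValue ℂ ℝ) (hw : ∀ c, w c = ‖c‖) (n : ℕ) (hn : 1 ≤ n) :
    ∃ (Φ : Circuit ℂ (Fin n × Fin n)) (o : Fin Φ.N), Φ.N ≤ 12 * n ^ 4 ∧
      Φ.value o = Matrix.det (Matrix.of fun i j => (MvPolynomial.X (i, j) :
        MvPolynomial (Fin n × Fin n) ℂ)) ∧
      cost w Φ o = (n : ℝ) ^ n := by
  classical
  set M := flN (g n) (A n) (n - 1) with hM
  have h1 := rch_flN (n := n) (n - 1)
  have h2 : Obt (ent M) (1 + 1 + 1 + (n * ((n * 3 + 1) + 1) + 1) + 1)
      (cc ((-1) ^ n) * g n (n - 1) * trace (A n * M)) :=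
    obt_mul (obt_mul (obt_cc _) (obt_cc _)) (obt_trace _ _ _ (fun i => obt_A_mul M i i))
  obtain ⟨N, hN, f, hf, hF⟩ := h2 _ _ le_rfl h1
  obtain ⟨i, hi, hfi⟩ := hF _ (Set.mem_insert _ _)
  obtain ⟨Φ, hΦ, hval⟩ := exists_circuit w hw hf
  have hio : i < Φ.N := by omega
  obtain ⟨hv1, hv2⟩ := hval ⟨i, hio⟩
  rw [hfi] at hv1 hv2
  refine ⟨Φ, ⟨i, hio⟩, ?_, ?_, ?_⟩
  · rw [hΦ]
    refine hN.trans ?_
    obtain ⟨m, rfl⟩ : ∃ m, n = m + 1 := ⟨n - 1, by omega⟩
    rw [Nat.add_sub_cancel]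
    ring_nf
    have h3 : m ^ 2 ≤ m ^ 4 ∨ m = 0 := by
      rcases Nat.eq_zero_or_pos m with h | h
      · exact Or.inr h
      · exact Or.inl (Nat.pow_le_pow_right h (by omega))
    nlinarith [Nat.zero_le m, Nat.zero_le (m ^ 2), Nat.zero_le (m ^ 3), Nat.zero_le (m ^ 4)]
  · rw [hv1]
    have hmap := flN_map (RingHom.fst (MvPolynomial (Fin n × Fin n) ℂ) ℝ≥0) (g n) (A n) (n - 1)
    have hAmap : (A n).map (RingHom.fst (MvPolynomial (Fin n × Fin n) ℂ) ℝ≥0) =
        Matrix.of fun i j => (MvPolynomial.X (i, j) : MvPolynomial (Fin n × Fin n) ℂ) := by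
      ext i j
      simp [A, xx]
    have hg : ∀ k : ℕ, ((k : MvPolynomial (Fin n × Fin n) ℂ) + 1) *
        (RingHom.fst (MvPolynomial (Fin n × Fin n) ℂ) ℝ≥0) (g n k) = -1 := by
      intro k
      have hk : ((k : ℂ) + 1) ≠ 0 := by exact_mod_cast Nat.succ_ne_zero k
      have : ((k : MvPolynomial (Fin n × Fin n) ℂ) + 1) = MvPolynomial.C ((k : ℂ) + 1) := by
        simp
      rw [this]
      simp only [g, cc, RingHom.coe_fst]
      rw [← MvPolynomial.C_mul]
      rw [mul_neg, mul_inv_cancel₀ hk]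
      simp
    have hdet := det_eq_flN (fun k => (RingHom.fst (MvPolynomial (Fin n × Fin n) ℂ) ℝ≥0) (g n k))
      hg (Matrix.of fun i j => (MvPolynomial.X (i, j) : MvPolynomial (Fin n × Fin n) ℂ)) hn
    rw [hAmap] at hmap
    rw [← hdet, ← hmap, ← hAmap]
    have htr : (trace (A n * M)).1 = trace ((A n).map
        (RingHom.fst (MvPolynomial (Fin n × Fin n) ℂ) ℝ≥0) *
        M.map (RingHom.fst (MvPolynomial (Fin n × Fin n) ℂ) ℝ≥0)) := by
      rw [← Matrix.map_mul]
      simp [trace, Prod.fst_sum]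
    rw [Prod.fst_mul, Prod.fst_mul, htr, hM]
    simp [cc]
  · rw [hv2]
    have hmap := flN_map (RingHom.snd (MvPolynomial (Fin n × Fin n) ℂ) ℝ≥0) (g n) (A n) (n - 1)
    have hAmap : (A n).map (RingHom.snd (MvPolynomial (Fin n × Fin n) ℂ) ℝ≥0) = J n := by
      ext i j
      simp [A, xx, J]
    have hg : (fun k => (RingHom.snd (MvPolynomial (Fin n × Fin n) ℂ) ℝ≥0) (g n k)) =
        fun k : ℕ => ((k : ℝ≥0) + 1)⁻¹ := by
      funext k
      simp only [g, cc, RingHom.coe_snd]
      rw [nnnorm_neg, nnnorm_inv]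
      congr 1
      have : ((k : ℂ) + 1) = ((k + 1 : ℕ) : ℂ) := by push_cast; ring
      rw [this]
      apply NNReal.eq
      rw [coe_nnnorm, Complex.norm_natCast]
      push_cast
      ring
    have htr : (trace (A n * M)).2 = trace (J n * flN (fun k => ((k : ℝ≥0) + 1)⁻¹) (J n)
        (n - 1)) := by
      have : (trace (A n * M)).2 = trace ((A n).map
          (RingHom.snd (MvPolynomial (Fin n × Fin n) ℂ) ℝ≥0) *
          M.map (RingHom.snd (MvPolynomial (Fin n × Fin n) ℂ) ℝ≥0)) := by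
        rw [← Matrix.map_mul]
        simp [trace, Prod.snd_sum]
      rw [this, hM, hmap, hAmap, hg]
    have hgn : (g n (n - 1)).2 = ((n : ℝ≥0))⁻¹ := by
      have := congrFun hg (n - 1)
      simp only [RingHom.coe_snd] at this
      rw [this]
      congr 1
      have : ((n - 1 + 1 : ℕ) : ℝ≥0) = n := by
        have : n - 1 + 1 = n := by omega
        rw [this]
      rw [← this]
      push_cast
      ring
    have hn0 : (n : ℝ≥0) ≠ 0 := by
      have : 0 < n := hn
      positivity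
    have hn1 : ((n - 1 : ℕ) : ℝ≥0) + 1 = n := by
      have : ((n - 1 + 1 : ℕ) : ℝ≥0) = n := by
        have : n - 1 + 1 = n := by omega
        rw [this]
      rw [← this]
      push_cast
      ring
    have hfin : (cc ((-1) ^ n) * g n (n - 1) * trace (A n * M)).2 = (n : ℝ≥0) ^ n := by
      rw [Prod.snd_mul, Prod.snd_mul, htr, J_mul_flN, trace_smul, trace_J, hgn, hn1]
      have : (cc ((-1) ^ n) : Pr ℂ (Fin n × Fin n)).2 = 1 := by simp [cc]
      rw [this, smul_eq_mul]
      have h5 : (n : ℝ≥0) ^ n = (n : ℝ≥0) ^ (n - 1) * n := by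
        rw [← pow_succ]
        congr 1
        omega
      rw [h5]
      field_simp
    rw [hfin]
    push_cast
    ring

end Pool.Agent.W463.CT.DetUp
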