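import Mathlib
import Pool.Agent.W463.CT.Main

set_option autoImplicit false

/-! # The tradeoff for all sizes -/

namespace Pool.Agent.W463.CT

open MvPolynomial Finset
open scoped NNReal
open Pool.Agent.H567.Nec Pool.Agent.H691R2.MM

universe u

variable {K : Type u} [Field K] (w : AbsoluteValue K ℝ) {n : ℕ} (Φ : Circuit K (Fin n × Fin n))

lemma ell_one_G {x : ℕ} (f : MvPolynomial (Fin n × Fin n) ℝ≥0) (hf : f.IsHomogeneous x) :
    ell 1 (G f) ≤ ((n - x).factorial : ℝ≥0) * mass f / (n.factorial : ℝ≥0) := by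
  rw [ell_one, Fintype.card_perm, Fintype.card_fin]
  exact div_le_div_of_nonneg_right (sum_G_le f hf) zero_le

lemma ell_two_G {x : ℕ} (hx : x ≤ n) (f g : MvPolynomial (Fin n × Fin n) ℝ≥0)
    (hf : f.IsHomogeneous x) (hg : g.IsHomogeneous (n - x)) :
    ell 2 (G (f * g)) * ((n.factorial : ℝ≥0) * (n.choose x : ℝ≥0)) ≤ mass (f * g) := by
  have h1 : ell 2 (G (f * g)) ≤ ell 1 (G f) * ell 1 (G g) :=
    (ell_mono 2 (G_mul_le f g)).trans (ell_mul one_pos one_pos _ _)
  have h2 := ell_one_G f hf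
  have h3 := ell_one_G g hg
  have h4 : n - (n - x) = x := by omega
  rw [h4] at h3
  have h5 : (n.choose x : ℝ≥0) * (x.factorial : ℝ≥0) * ((n - x).factorial : ℝ≥0) =
      (n.factorial : ℝ≥0) := by exact_mod_cast Nat.choose_mul_factorial_mul_factorial hx
  have hpos : (0 : ℝ≥0) < (n.factorial : ℝ≥0) := by exact_mod_cast n.factorial_pos
  calc ell 2 (G (f * g)) * ((n.factorial : ℝ≥0) * (n.choose x : ℝ≥0))
      ≤ ((((n - x).factorial : ℝ≥0) * mass f / (n.factorial : ℝ≥0)) *
          ((x.factorial : ℝ≥0) * mass g / (n.factorial : ℝ≥0))) *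
          ((n.factorial : ℝ≥0) * (n.choose x : ℝ≥0)) :=
        mul_le_mul_of_nonneg_right (h1.trans (mul_le_mul h2 h3 zero_le zero_le)) zero_le
    _ = ((n.choose x : ℝ≥0) * (x.factorial : ℝ≥0) * ((n - x).factorial : ℝ≥0)) /
          (n.factorial : ℝ≥0) * (mass f * mass g) := by
        field_simp
    _ = mass (f * g) := by
        rw [h5, div_self hpos.ne', one_mul, mass_mul]

lemma choose_mono_half {a b : ℕ} (hab : a ≤ b) (hb : b ≤ n / 2) : n.choose a ≤ n.choose b := by
  induction b, hab using Nat.le_induction with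
  | base => exact le_rfl
  | succ b hb' ih =>
    exact (ih (by omega)).trans (Nat.choose_le_succ_of_lt_half_left (by omega))

lemma ell_three_G {a b d : ℕ} (hsum : d + a + b = n) (ha : a ≤ n / 2) (hb : b ≤ n / 2)
    (hd : d ≤ n / 2) (s f g : MvPolynomial (Fin n × Fin n) ℝ≥0)
    (hs : s.IsHomogeneous d) (hf : f.IsHomogeneous a) (hg : g.IsHomogeneous b) :
    ell 2 (G (s * (f * g))) * ((n.factorial : ℝ≥0) * (n.choose ((n + 2) / 3) : ℝ≥0)) ≤
      mass (s * (f * g)) := by
  have key : ∀ (x : ℕ), (n + 2) / 3 ≤ x → x ≤ n / 2 → ∀ (p q : MvPolynomial (Fin n × Fin n) ℝ≥0),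
      p.IsHomogeneous x → q.IsHomogeneous (n - x) →
      ell 2 (G (p * q)) * ((n.factorial : ℝ≥0) * (n.choose ((n + 2) / 3) : ℝ≥0)) ≤
      mass (p * q) := by
    intro x hx1 hx2 p q hp hq
    refine le_trans ?_ (ell_two_G (by omega) p q hp hq)
    have : (n.choose ((n + 2) / 3) : ℝ≥0) ≤ (n.choose x : ℝ≥0) := by
      exact_mod_cast choose_mono_half hx1 hx2
    gcongr
  by_cases h1 : (n + 2) / 3 ≤ d
  · have h2 := (hf.mul hg)
    have h3 : a + b = n - d := by omega
    rw [h3] at h2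
    exact key d h1 hd s (f * g) hs h2
  · by_cases h2 : (n + 2) / 3 ≤ a
    · have h3 := (hs.mul hg)
      have h4 : d + b = n - a := by omega
      rw [h4] at h3
      have h5 : s * (f * g) = f * (s * g) := by ring
      rw [h5]
      exact key a h2 ha f (s * g) hf h3
    · have h3 := (hs.mul hf)
      have h4 : d + a = n - b := by omega
      rw [h4] at h3
      have h5 : s * (f * g) = g * (s * f) := by ring
      rw [h5]
      exact key b (by omega) hb g (s * f) hg h3

/-- The tradeoff between the number of multiplications and the mass. -/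
theorem tradeoff (hn : 2 ≤ n) (o : Fin Φ.N) (P : Finset (Equiv.Perm (Fin n)))
    (hP : ∀ σ ∈ P, 1 ≤ w ((Φ.value o).coeff (mono σ))) :
    (P.card : ℝ) ^ 2 * (n.choose ((n + 2) / 3) : ℝ) ≤
      (mulGates Φ).card * ((n : ℝ) + 1) ^ 2 * n.factorial * cost w Φ o := by
  classical
  set D := n / 2 + 1 with hD
  have hD2 : 2 ≤ D := by omega
  obtain ⟨T, hT1, hT2⟩ := decomp_J w Φ hD2 o (show D ≤ n by omega) le_rfl
  have hnD : n / D = 1 := by
    rw [Nat.div_eq_iff (by omega)]; omega
  have hterm : ∀ t ∈ J Φ D n, ell 2 (G (T t)) *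
      ((n.factorial : ℝ≥0) * (n.choose ((n + 2) / 3) : ℝ≥0)) ≤ mass (T t) := by
    intro t _
    rcases hT2 t with h0 | ⟨s, a, b, d, hs, hdD, hsum, ha, hb, hab, hTt⟩
    · have : ell 2 (G (0 : MvPolynomial (Fin n × Fin n) ℝ≥0)) = 0 := by
        unfold ell
        simp [G_zero]
      rw [h0, this, zero_mul]
      exact zero_le
    · rw [hnD] at ha hb
      have ha' : a < D := by
        rcases Nat.lt_or_ge a D with h | h
        · exact h
        · have := (Nat.one_le_div_iff (show 0 < D by omega)).mpr h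
          omega
      have hb' : b < D := by
        rcases Nat.lt_or_ge b D with h | h
        · exact h
        · have := (Nat.one_le_div_iff (show 0 < D by omega)).mpr h
          omega
      rw [hTt]
      exact ell_three_G hsum (by omega) (by omega) (by omega) s _ _ hs (H_isHom _ _ _ _)
        (H_isHom _ _ _ _)
  have h2 : ∀ σ ∈ P, 1 ≤ G (H w Φ o n) σ := by
    intro σ hσ
    refine le_trans ?_ (coeff_le_G _ σ)
    rw [H, coeff_homogeneousComponent, if_pos (degree_mono σ)]
    have h3 := (hP σ hσ).trans (coeff_value_le w Φ o (mono σ))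
    exact_mod_cast h3
  have h4 := ell_ge (k := 2) (by norm_num) (G (H w Φ o n)) P h2
  rw [Fintype.card_perm, Fintype.card_fin] at h4
  have hG : G (H w Φ o n) = fun σ => ∑ t ∈ J Φ D n, G (T t) σ := by
    funext σ
    rw [hT1, G_sum]
  have h5 := ell_sum (J Φ D n) (k := 2) (by norm_num) (fun t => G (T t))
  rw [← hG] at h5
  have h6 : ell 2 (G (H w Φ o n)) * ((n.factorial : ℝ≥0) * (n.choose ((n + 2) / 3) : ℝ≥0)) ≤
      ((J Φ D n).card : ℝ≥0) * mass (H w Φ o n) := by
    refine (mul_le_mul_of_nonneg_right h5 zero_le).trans ?_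
    rw [show 2 - 1 = 1 from rfl, pow_one, mul_assoc, Finset.sum_mul, hT1, mass_sum]
    exact mul_le_mul_of_nonneg_left (Finset.sum_le_sum hterm) zero_le
  have h7 : mass (H w Φ o n) ≤ mass (absv w Φ o) := mass_hc_le n _
  have h8 : ((J Φ D n).card : ℝ≥0) ≤ ((mulGates Φ).card : ℝ≥0) * ((n : ℝ≥0) + 1) ^ 2 := by
    have h9 := card_J Φ hD2 n
    have h10 : (mulGates Φ).card * D * (n + 1) ≤ (mulGates Φ).card * (n + 1) ^ 2 := by
      have : D ≤ n + 1 := by omega
      calc (mulGates Φ).card * D * (n + 1) ≤ (mulGates Φ).card * (n + 1) * (n + 1) := by gcongr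
        _ = _ := by ring
    exact_mod_cast h9.trans h10
  have hpos : (0 : ℝ≥0) < (n.factorial : ℝ≥0) := by exact_mod_cast n.factorial_pos
  have h9 : (P.card : ℝ≥0) ^ 2 * (n.choose ((n + 2) / 3) : ℝ≥0) ≤
      ((mulGates Φ).card : ℝ≥0) * ((n : ℝ≥0) + 1) ^ 2 * (n.factorial : ℝ≥0) *
        mass (absv w Φ o) := by
    calc (P.card : ℝ≥0) ^ 2 * (n.choose ((n + 2) / 3) : ℝ≥0)
        = ((P.card : ℝ≥0) / (n.factorial : ℝ≥0)) ^ 2 *
          ((n.factorial : ℝ≥0) * (n.choose ((n + 2) / 3) : ℝ≥0)) * (n.factorial : ℝ≥0) := by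
          field_simp
      _ ≤ ((J Φ D n).card : ℝ≥0) * mass (H w Φ o n) * (n.factorial : ℝ≥0) := by
          refine mul_le_mul_of_nonneg_right (le_trans ?_ h6) zero_le
          exact mul_le_mul_of_nonneg_right h4 zero_le
      _ ≤ (((mulGates Φ).card : ℝ≥0) * ((n : ℝ≥0) + 1) ^ 2) * mass (absv w Φ o) *
          (n.factorial : ℝ≥0) := by
          gcongr
      _ = _ := by ring
  rw [← NNReal.coe_le_coe] at h9
  rw [← mass_absv w Φ o]
  simp only [NNReal.coe_mul, NNReal.coe_pow, NNReal.coe_add, NNReal.coe_natCast,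
    NNReal.coe_one] at h9
  exact h9

end Pool.Agent.W463.CT
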